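import Pool.Agent.Helper988.AC.Nil
import Pool.Agent.Helper988.AC.Seq2

set_option autoImplicit false
open Filter Topology

namespace Pool.Agent.Helper988.AC

section Quot

variable {A : Type} [NonUnitalNormedRing A] [NormedSpace ℂ A] [IsScalarTower ℂ A A]
  [SMulCommClass ℂ A A]

/-- left multiplication on the quotient -/
noncomputable def quotMul (K : Submodule ℂ A) (hl : ∀ a x, x ∈ K → a * x ∈ K) (a : A) :
    (A ⧸ K) →ₗ[ℂ] (A ⧸ K) := K.mapQ K (LinearMap.mulLeft ℂ a) (fun x hx => hl a x hx)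

/-- the left regular representation on the quotient as a matrix representation -/
noncomputable def quotRep (K : Submodule ℂ A) (hl : ∀ a x, x ∈ K → a * x ∈ K) {d : ℕ}
    (b : Module.Basis (Fin d) ℂ (A ⧸ K)) : A →ₙₐ[ℂ] Matrix (Fin d) (Fin d) ℂ where
  toFun a := LinearMap.toMatrix b b (quotMul K hl a)
  map_smul' c a := by
    have : quotMul K hl (c • a) = c • quotMul K hl a := by
      apply Submodule.linearMap_qext
      ext x
      show K.mkQ ((c • a) * x) = c • K.mkQ (a * x)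
      rw [smul_mul_assoc, map_smul]
    rw [this, map_smul]; rfl
  map_zero' := by
    have : quotMul K hl (0 : A) = 0 := by
      apply Submodule.linearMap_qext
      ext x
      show K.mkQ (0 * x) = 0
      rw [zero_mul, map_zero]
    rw [this, map_zero]
  map_add' a c := by
    have : quotMul K hl (a + c) = quotMul K hl a + quotMul K hl c := by
      apply Submodule.linearMap_qext
      ext x
      show K.mkQ ((a + c) * x) = K.mkQ (a * x) + K.mkQ (c * x)
      rw [add_mul, map_add]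
    rw [this, map_add]
  map_mul' a c := by
    have : quotMul K hl (a * c) = (quotMul K hl a).comp (quotMul K hl c) := by
      apply Submodule.linearMap_qext
      ext x
      show K.mkQ ((a * c) * x) = K.mkQ (a * (c * x))
      rw [mul_assoc]
    rw [this, LinearMap.toMatrix_comp b b b]

lemma quotRep_cont (K : Submodule ℂ A) (hl : ∀ a x, x ∈ K → a * x ∈ K) {d : ℕ}
    (b : Module.Basis (Fin d) ℂ (A ⧸ K)) (hcl : IsClosed (K : Set A)) :
    Continuous (quotRep K hl b) := by
  haveI : IsClosed (K : Set A) := hcl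
  haveI : FiniteDimensional ℂ (A ⧸ K) := b.finiteDimensional_of_finite
  apply continuous_matrix
  intro i j
  obtain ⟨x, hx⟩ := K.mkQ_surjective (b j)
  have h1 : ∀ a, quotRep K hl b a i j = (b.coord i) (K.mkQ (a * x)) := by
    intro a
    show LinearMap.toMatrix b b (quotMul K hl a) i j = _
    rw [LinearMap.toMatrix_apply, ← hx]
    rfl
  have h2 : Continuous (b.coord i) := LinearMap.continuous_of_finiteDimensional _
  have h3 : Continuous (fun a : A => (b.coord i) (K.mkQ (a * x))) :=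
    h2.comp ((Submodule.continuous_mkQ K).comp (continuous_mul_const x))
  exact h3.congr (fun a => (h1 a).symm)

lemma quotRep_pw (K : Submodule ℂ A) (hl : ∀ a x, x ∈ K → a * x ∈ K) {d : ℕ}
    (b : Module.Basis (Fin d) ℂ (A ⧸ K)) (s : A) (n : ℕ) :
    quotRep K hl b (pw s n) = (quotRep K hl b s) ^ (n + 1) := by
  induction n with
  | zero => rw [zero_add, pow_one]; rfl
  | succ n ih =>
    show quotRep K hl b (s * pw s n) = _
    rw [map_mul, ih, ← pow_succ']

lemma quotRep_zero (K : Submodule ℂ A) (hl : ∀ a x, x ∈ K → a * x ∈ K) {d : ℕ}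
    (b : Module.Basis (Fin d) ℂ (A ⧸ K)) (s : A) (h : quotRep K hl b s = 0) (x : A) :
    s * x ∈ K := by
  have h1 : quotMul K hl s = 0 := by
    apply (LinearMap.toMatrix b b).injective
    rw [map_zero]; exact h
  have h2 : K.mkQ (s * x) = 0 := by
    have : quotMul K hl s (K.mkQ x) = 0 := by rw [h1]; rfl
    exact this
  exact (Submodule.Quotient.mk_eq_zero K).1 h2

end Quot

section Main

variable {A : Type} [NonUnitalNormedRing A] [NormedSpace ℂ A] [IsScalarTower ℂ A A]
  [SMulCommClass ℂ A A]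
  {B : Type} [NonUnitalNormedRing B] [NormedSpace ℂ B] [IsScalarTower ℂ B B]
  [SMulCommClass ℂ B B]

/-- the underlying linear map -/
def lin (θ : B →ₙₐ[ℂ] A) : B →ₗ[ℂ] A :=
  { toFun := θ, map_add' := map_add θ, map_smul' := fun c x => map_smul θ c x }

/-- elements of the separating space are nilpotent modulo cofinite closed ideals -/
lemma nil_mod [CompleteSpace B] (θ : B →ₙₐ[ℂ] A) (K : Submodule ℂ A)
    (hcl : IsClosed (K : Set A)) (hfin : FiniteDimensional ℂ (A ⧸ K))
    (hl : ∀ a x, x ∈ K → a * x ∈ K) : ∃ m, ∀ s ∈ Sep (lin θ), pw s m ∈ K := by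
  let b := Module.finBasis ℂ (A ⧸ K)
  refine ⟨Module.finrank ℂ (A ⧸ K) + 1, fun s hs => ?_⟩
  obtain ⟨x, hx, hxs⟩ := Sep_seq (lin θ) hs
  have hn := limit_nilpotent ((quotRep K hl b).comp θ) x hx (quotRep K hl b s)
    (((quotRep_cont K hl b hcl).tendsto s).comp hxs)
  rw [pw_succ']
  apply quotRep_zero K hl b
  rw [quotRep_pw, pow_succ, hn, zero_mul]

lemma approx_K (θl : B →ₗ[ℂ] A) (hd : DenseRange θl) (K : Submodule ℂ A)
    (hcl : IsClosed (K : Set A)) (hfin : FiniteDimensional ℂ (A ⧸ K)) (k : A) (hk : k ∈ K) :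
    k ∈ closure (θl '' {b | θl b ∈ K}) := by
  haveI : IsClosed (K : Set A) := hcl
  obtain ⟨u, hu1, hu2⟩ := mem_closure_iff_seq_limit.1 (hd k)
  choose v hv using hu1
  let Φ : B →ₗ[ℂ] (A ⧸ K) := K.mkQ.comp θl
  obtain ⟨g, hg⟩ := Φ.rangeRestrict.exists_rightInverse_of_surjective Φ.range_rangeRestrict
  have hθgc : Continuous (θl.comp g) := LinearMap.continuous_of_finiteDimensional _
  have hr0 : Tendsto (fun j => Φ.rangeRestrict (v j)) atTop (𝓝 0) := by
    rw [tendsto_subtype_rng]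
    have h1 : Tendsto (fun j => K.mkQ (u j)) atTop (𝓝 (K.mkQ k)) :=
      ((Submodule.continuous_mkQ K).tendsto k).comp hu2
    have h2 : K.mkQ k = 0 := (Submodule.Quotient.mk_eq_zero K).2 hk
    rw [h2] at h1
    refine h1.congr (fun j => ?_)
    show K.mkQ (u j) = K.mkQ (θl (v j))
    rw [hv]
  refine mem_closure_of_tendsto (f := fun j => θl (v j - g (Φ.rangeRestrict (v j))))
    (b := atTop) ?_ (Eventually.of_forall (fun j => ?_))
  · have h1 := (hθgc.tendsto 0).comp hr0
    rw [map_zero] at h1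
    have := hu2.sub h1
    rw [sub_zero] at this
    refine this.congr (fun j => ?_)
    simp only [map_sub, Function.comp, LinearMap.comp_apply, hv]
  · refine ⟨_, ?_, rfl⟩
    have h1 : Φ.rangeRestrict (g (Φ.rangeRestrict (v j))) = Φ.rangeRestrict (v j) :=
      LinearMap.congr_fun hg (Φ.rangeRestrict (v j))
    have h2 : Φ (g (Φ.rangeRestrict (v j))) = Φ (v j) := congrArg Subtype.val h1
    have h3 : Φ (v j - g (Φ.rangeRestrict (v j))) = 0 := by rw [map_sub, h2, sub_self]
    exact (Submodule.Quotient.mk_eq_zero K).1 h3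

omit [NormedSpace ℂ A] [IsScalarTower ℂ A A] [SMulCommClass ℂ A A] in
lemma lmul_pw (t z : A) (n : ℕ) : (fun w => t * w)^[n + 1] z = pw t n * z := by
  induction n with
  | zero => rfl
  | succ n ih =>
    rw [Function.iterate_succ_apply', ih]
    show t * (pw t n * z) = t * pw t n * z
    rw [mul_assoc]

/-- the extension step -/
lemma ext_step [CompleteSpace B] (hsp : ∀ a : A, (∀ x, a * x * a = 0) → a = 0)
    (θ : B →ₙₐ[ℂ] A) (hd : DenseRange (lin θ)) (K : Submodule ℂ A)
    (hcl : IsClosed (K : Set A)) (hfin : FiniteDimensional ℂ (A ⧸ K))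
    (hl : ∀ a x, x ∈ K → a * x ∈ K) (hr : ∀ a x, x ∈ K → x * a ∈ K)
    (p q : A) (s₀ : A) (hs₀ : s₀ ∈ Sep (lin θ)) (hne : p * s₀ * q ≠ 0) :
    ∃ b : B × B, lin θ b.1 ∈ K ∧ lin θ b.2 ∈ K ∧
      ∃ s ∈ Sep (lin θ), p * (lin θ b.1 * s * lin θ b.2) * q ≠ 0 := by
  have hθ : ∀ x y, lin θ (x * y) = lin θ x * lin θ y := fun x y => map_mul θ x y
  by_contra hcon
  push Not at hcon
  have hlimit : ∀ (F : A → A), Continuous F → (∀ b : B, lin θ b ∈ K → F (lin θ b) = 0) →
      ∀ k ∈ K, F k = 0 := by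
    intro F hF h k hk
    have hcl' : IsClosed {x : A | F x = 0} := isClosed_eq hF continuous_const
    have hsub : lin θ '' {b | lin θ b ∈ K} ⊆ {x : A | F x = 0} := by
      rintro _ ⟨b, hb, rfl⟩
      exact h b hb
    exact closure_minimal hsub hcl' (approx_K (lin θ) hd K hcl hfin k hk)
  have hkill : ∀ k ∈ K, ∀ s ∈ Sep (lin θ), ∀ k' ∈ K, p * (k * s * k') * q = 0 := by
    intro k hk s hs k' hk'
    refine hlimit (fun u => p * (k * s * u) * q) (by fun_prop) (fun b' hb' => ?_) k' hk'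
    exact hlimit (fun u => p * (u * s * lin θ b') * q) (by fun_prop)
      (fun b hb => hcon (b, b') hb hb' s hs) k hk
  apply hne
  -- Levitzki
  obtain ⟨m, hm⟩ := nil_mod θ K hcl hfin hl
  refine levitzki hsp _ ((m + 1) + (1 + (m + 1))) (fun x => ?_)
  set t := s₀ * q * x * p with ht
  have htS : t ∈ Sep (lin θ) := by
    rw [ht]
    exact Sep_mul_right _ hθ hd _ _ (Sep_mul_right _ hθ hd _ _ (Sep_mul_right _ hθ hd _ _ hs₀))
  have huxk : ∀ j, uxk (p * s₀ * q) x j (p * s₀ * q) = p * ((fun w => t * w)^[j] s₀) * q := by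
    intro j
    induction j with
    | zero => rfl
    | succ j ih =>
      show p * s₀ * q * x * uxk (p * s₀ * q) x j (p * s₀ * q) = _
      rw [ih, Function.iterate_succ_apply', ht]
      simp only [mul_assoc]
  have hit : (fun w => t * w)^[(m + 1) + (1 + (m + 1))] s₀ = pw t m * t * (pw t m * s₀) := by
    rw [Function.iterate_add_apply _ (m + 1) (1 + (m + 1)),
      Function.iterate_add_apply _ 1 (m + 1), lmul_pw t _ m, lmul_pw t s₀ m]
    show pw t m * (t * (pw t m * s₀)) = _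
    simp only [mul_assoc]
  rw [huxk, hit]
  exact hkill (pw t m) (hm t htS) t htS (pw t m * s₀) (hr _ _ (hm t htS))

/-- products of `n + 1` elements of `J` -/
def PowProd (J : Submodule ℂ A) : ℕ → Set A
  | 0 => J
  | n + 1 => {x | ∃ a ∈ J, ∃ c ∈ PowProd J n, x = a * c}

/-- the iterated extension step -/
lemma ext_multi [CompleteSpace B] (hsp : ∀ a : A, (∀ x, a * x * a = 0) → a = 0)
    (θ : B →ₙₐ[ℂ] A) (hd : DenseRange (lin θ)) (K : Submodule ℂ A)
    (hcl : IsClosed (K : Set A)) (hfin : FiniteDimensional ℂ (A ⧸ K))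
    (hl : ∀ a x, x ∈ K → a * x ∈ K) (hr : ∀ a x, x ∈ K → x * a ∈ K) (n : ℕ) :
    ∀ (p q : A) (s₀ : A), s₀ ∈ Sep (lin θ) → p * s₀ * q ≠ 0 →
    ∃ b : B × B, lin θ b.1 ∈ PowProd K n ∧
      ∃ s ∈ Sep (lin θ), p * (lin θ b.1 * s * lin θ b.2) * q ≠ 0 := by
  have hθ : ∀ x y, lin θ (x * y) = lin θ x * lin θ y := fun x y => map_mul θ x y
  induction n with
  | zero =>
    intro p q s₀ hs₀ hne
    obtain ⟨b, hb1, _, hb3⟩ := ext_step hsp θ hd K hcl hfin hl hr p q s₀ hs₀ hne
    exact ⟨b, hb1, hb3⟩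
  | succ n ih =>
    intro p q s₀ hs₀ hne
    obtain ⟨b, hb1, _, s, hs, hb3⟩ := ext_step hsp θ hd K hcl hfin hl hr p q s₀ hs₀ hne
    have h1 : p * lin θ b.1 * s * (lin θ b.2 * q) ≠ 0 := by
      intro h0
      apply hb3
      rw [← h0]
      simp only [mul_assoc]
    obtain ⟨c, hc1, s', hs', hc2⟩ := ih _ _ s hs h1
    refine ⟨(b.1 * c.1, c.2 * b.2), ?_, s', hs', ?_⟩
    · show lin θ (b.1 * c.1) ∈ PowProd K (n + 1)
      rw [hθ]
      exact ⟨_, hb1, _, hc1, rfl⟩
    · show p * (lin θ (b.1 * c.1) * s' * lin θ (c.2 * b.2)) * q ≠ 0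
      rw [hθ, hθ]
      intro h0
      apply hc2
      rw [← h0]
      simp only [mul_assoc]

/-- homomorphisms with dense range into semiprime algebras in which the closed powers of the closed
cofinite ideals have zero intersection -/
theorem cofin_cont [CompleteSpace A] [CompleteSpace B]
    (hsp : ∀ a : A, (∀ x, a * x * a = 0) → a = 0)
    (hK : ∀ y : A, y ≠ 0 → ∃ (K J : Submodule ℂ A) (n : ℕ), IsClosed (K : Set A) ∧
      (∀ a x, x ∈ K → a * x ∈ K) ∧ (∀ a x, x ∈ K → x * a ∈ K) ∧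
      IsClosed (J : Set A) ∧ FiniteDimensional ℂ (A ⧸ J) ∧
      (∀ a x, x ∈ J → a * x ∈ J) ∧ (∀ a x, x ∈ J → x * a ∈ J) ∧
      (∀ x ∈ PowProd J n, x ∈ K) ∧ y ∉ K)
    (θ : B →ₙₐ[ℂ] A) (hd' : DenseRange θ) : Continuous θ := by
  have hd : DenseRange (lin θ) := hd'
  have hθ : ∀ x y, lin θ (x * y) = lin θ x * lin θ y := fun x y => map_mul θ x y
  have hS : ∀ s ∈ Sep (lin θ), s = 0 := by
    by_contra hcon
    push Not at hcon
    obtain ⟨s₁, hs₁, hs₁0⟩ := hcon
    -- the start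
    have hstart : ∃ b₀ b₀' : B, ∃ s ∈ Sep (lin θ), lin θ b₀ * s * lin θ b₀' ≠ 0 := by
      by_contra hcon
      push Not at hcon
      apply hs₁0
      have hlimit : ∀ (F : A → A), Continuous F → (∀ b : B, F (lin θ b) = 0) → ∀ a, F a = 0 := by
        intro F hF h a
        have hcl' : IsClosed {x : A | F x = 0} := isClosed_eq hF continuous_const
        have hsub : Set.range (lin θ) ⊆ {x : A | F x = 0} := by
          rintro _ ⟨b, rfl⟩
          exact h b
        exact closure_minimal hsub hcl' (hd a)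
      have hall : ∀ a c : A, a * s₁ * c = 0 := by
        intro a c
        refine hlimit (fun u => a * s₁ * u) (by fun_prop) (fun b' => ?_) c
        exact hlimit (fun u => u * s₁ * lin θ b') (by fun_prop) (fun b => hcon b b' s₁ hs₁) a
      apply semiprime3 hsp
      intro x x'
      calc s₁ * x * s₁ * x' * s₁ = (s₁ * x) * s₁ * (x' * s₁) := by simp only [mul_assoc]
        _ = 0 := hall _ _
    obtain ⟨b₀, b₀', hb₀⟩ := hstart
    let G : Type := {c : B × B // ∃ s ∈ Sep (lin θ), lin θ c.1 * s * lin θ c.2 ≠ 0}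
    have hf : ∀ c : G, ∃ (b : B × B) (K : Submodule ℂ A), IsClosed (K : Set A) ∧
        (∀ a x, x ∈ K → a * x ∈ K) ∧ (∀ a x, x ∈ K → x * a ∈ K) ∧
        lin θ b.1 ∈ K ∧ (∃ s ∈ Sep (lin θ), lin θ c.1.1 * s * lin θ c.1.2 ∉ K) ∧
        ∃ s ∈ Sep (lin θ), lin θ c.1.1 * (lin θ b.1 * s * lin θ b.2) * lin θ c.1.2 ≠ 0 := by
      intro c
      obtain ⟨s, hs, hne⟩ := c.2
      obtain ⟨K, J, n, hK1, hK2, hK3, hJ1, hJ2, hJ3, hJ4, hJK, hyK⟩ := hK _ hne
      obtain ⟨b, hb1, hb3⟩ := ext_multi hsp θ hd J hJ1 hJ2 hJ3 hJ4 n _ _ s hs hne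
      exact ⟨b, K, hK1, hK2, hK3, hJK _ hb1, ⟨s, hs, hyK⟩, hb3⟩
    choose f Kf hf1 hf2 hf3 hf4 hf5 hf6 using hf
    have hnext : ∀ c : G, ∃ s ∈ Sep (lin θ),
        lin θ (c.1.1 * (f c).1) * s * lin θ ((f c).2 * c.1.2) ≠ 0 := by
      intro c
      obtain ⟨s, hs, h⟩ := hf6 c
      refine ⟨s, hs, ?_⟩
      rw [hθ, hθ]
      intro h0
      apply h
      calc lin θ c.1.1 * (lin θ (f c).1 * s * lin θ (f c).2) * lin θ c.1.2
          = lin θ c.1.1 * lin θ (f c).1 * s * (lin θ (f c).2 * lin θ c.1.2) := by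
            simp only [mul_assoc]
        _ = 0 := h0
    let cs : ℕ → G := fun n => Nat.rec (⟨(b₀, b₀'), hb₀⟩ : G)
      (fun _ c => ⟨(c.1.1 * (f c).1, (f c).2 * c.1.2), hnext c⟩) n
    have hcs1 : ∀ n, (cs (n + 1)).1.1 = (cs n).1.1 * (f (cs n)).1 := fun n => rfl
    have hcs2 : ∀ n, (cs (n + 1)).1.2 = (f (cs n)).2 * (cs n).1.2 := fun n => rfl
    let bs : ℕ → B × B := fun n => Nat.casesOn n (b₀, b₀') (fun n => f (cs n))
    have hbs : ∀ n, bs (n + 1) = f (cs n) := fun n => rfl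
    let R : ℕ → (B →L[ℂ] B) := fun i =>
      ((ContinuousLinearMap.mul ℂ B).flip (bs i).2).comp (ContinuousLinearMap.mul ℂ B (bs i).1)
    let T : ℕ → (A →L[ℂ] A) := fun i =>
      ((ContinuousLinearMap.mul ℂ A).flip (lin θ (bs i).2)).comp
        (ContinuousLinearMap.mul ℂ A (lin θ (bs i).1))
    have hT : ∀ i a, T i a = lin θ (bs i).1 * a * lin θ (bs i).2 := fun i a => rfl
    have hR : ∀ i a, R i a = (bs i).1 * a * (bs i).2 := fun i a => rfl
    have hTc : ∀ n a, (opProd T 0 (n + 1)) a = lin θ (cs n).1.1 * a * lin θ (cs n).1.2 := by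
      intro n
      induction n with
      | zero => intro a; rfl
      | succ n ih =>
        intro a
        show (opProd T 0 (n + 1)) (T (0 + (n + 1)) a) = _
        rw [ih, hcs1, hcs2, hθ, hθ, hT, zero_add, hbs]
        simp only [mul_assoc]
    refine gliding_nu (lin θ) R T (fun i x => by rw [hR, hT, hθ, hθ])
      (fun n => (LinearMap.range ((opProd T 0 n : A →L[ℂ] A) : A →ₗ[ℂ] A)).topologicalClosure)
      (fun n => Submodule.isClosed_topologicalClosure _)
      (fun n a => Submodule.le_topologicalClosure _ ⟨a, rfl⟩)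
      (fun k => k + 1) (fun a b h => Nat.succ_lt_succ h) (fun k => ?_)
    obtain ⟨s, hs, hsK⟩ := hf5 (cs k)
    refine ⟨s, hs, ?_⟩
    rw [hTc]
    intro hmem
    apply hsK
    have hmem' : lin θ (cs k).1.1 * s * lin θ (cs k).1.2 ∈
        closure ((LinearMap.range ((opProd T 0 (k + 1 + 1) : A →L[ℂ] A) : A →ₗ[ℂ] A) :
          Submodule ℂ A) : Set A) := hmem
    refine closure_minimal ?_ (hf1 (cs k)) hmem'
    rintro v ⟨y, rfl⟩
    show (opProd T 0 (k + 1)) (T (0 + (k + 1)) y) ∈ Kf (cs k)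
    rw [hTc, hT, zero_add, hbs]
    apply hf3
    apply hf2
    apply hf3
    apply hf3
    exact hf4 (cs k)
  have hmain : Continuous (lin θ) := by
    apply LinearMap.continuous_of_seq_closed_graph
    intro u x0 y0 hu hy
    have hx : Tendsto (fun j => u j - x0) atTop (𝓝 0) := by
      have := hu.sub_const x0
      rwa [sub_self] at this
    have hs : Tendsto (fun j => lin θ (u j - x0)) atTop (𝓝 (y0 - lin θ x0)) := by
      have := hy.sub_const (lin θ x0)
      refine this.congr (fun j => ?_)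
      simp [map_sub]
    exact sub_eq_zero.1 (hS _ (Sep_of_seq (lin θ) _ hx hs))
  exact hmain

end Main

end Pool.Agent.Helper988.AC
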