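import Mathlib

set_option autoImplicit false
open Filter Topology

namespace Pool.Agent.Helper988.AC

section Char

variable {B : Type} [NonUnitalNormedRing B] [NormedSpace ℂ B] [IsScalarTower ℂ B B]
  [SMulCommClass ℂ B B] [CompleteSpace B]

/-- powers of `y` in a non-unital ring: `u 0 = y`, `u (n+1) = y * u n` -/
def pw (y : B) : ℕ → B
  | 0 => y
  | n + 1 => y * pw y n

lemma pw_norm (y : B) (n : ℕ) : ‖pw y n‖ ≤ ‖y‖ ^ (n + 1) := by
  induction n with
  | zero => simp [pw]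
  | succ n ih =>
    calc ‖y * pw y n‖ ≤ ‖y‖ * ‖pw y n‖ := norm_mul_le _ _
      _ ≤ ‖y‖ * ‖y‖ ^ (n + 1) := mul_le_mul_of_nonneg_left ih (norm_nonneg _)
      _ = ‖y‖ ^ (n + 1 + 1) := by ring

lemma char_bound (φ : B →ₙₐ[ℂ] ℂ) (x : B) : ‖φ x‖ ≤ ‖x‖ := by
  by_contra hc
  push Not at hc
  have hφ : φ x ≠ 0 := by
    intro h
    rw [h, norm_zero] at hc
    exact absurd hc (not_lt.2 (norm_nonneg _))
  set y : B := (φ x)⁻¹ • x with hy
  have hy1 : ‖y‖ < 1 := by
    rw [hy, norm_smul, norm_inv]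
    rw [inv_mul_lt_one₀ (norm_pos_iff.2 hφ)]
    exact hc
  have hφy : φ y = 1 := by
    rw [hy, map_smul, smul_eq_mul, inv_mul_cancel₀ hφ]
  have hsum : Summable (pw y) := by
    apply Summable.of_norm_bounded (g := fun n => ‖y‖ ^ (n + 1)) _ (pw_norm y)
    exact (summable_nat_add_iff 1).2 (summable_geometric_of_lt_one (norm_nonneg _) hy1)
  have h1 : ∑' n, pw y n = y + y * ∑' n, pw y n := by
    calc ∑' n, pw y n = pw y 0 + ∑' n, pw y (n + 1) := hsum.tsum_eq_zero_add
      _ = y + ∑' n, y * pw y n := rfl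
      _ = y + y * ∑' n, pw y n := by rw [hsum.tsum_mul_left y]
  have h2 := congrArg φ h1
  rw [map_add, map_mul, hφy] at h2
  have : (0 : ℂ) = 1 := by linear_combination h2
  exact zero_ne_one this

end Char

section Gliding

variable {B A : Type} [NormedAddCommGroup B] [NormedSpace ℂ B] [CompleteSpace B]
  [NormedAddCommGroup A] [NormedSpace ℂ A]

/-- the gliding hump lemma -/
lemma gliding (θ : B →ₗ[ℂ] A) (R : B →L[ℂ] B) (T : A →L[ℂ] A) (hRT : ∀ x, θ (R x) = T (θ x))
    (I : ℕ → Submodule ℂ A) (hI0 : I 0 = ⊤) (hanti : Antitone I)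
    (hcl : ∀ n, IsClosed (I n : Set A)) (hTI : ∀ n, ∀ a ∈ I n, T a ∈ I (n + 1))
    (hinter : ∀ a, (∀ n, a ∈ I n) → a = 0)
    (x : ℕ → B) (hx : Tendsto x atTop (𝓝 0)) (s : A)
    (hs : Tendsto (fun j => θ (x j)) atTop (𝓝 s)) : ∃ n : ℕ, (T ^ n) s = 0 := by
  by_contra hc
  push Not at hc
  have hTn : ∀ n a, (T ^ n) a ∈ I n := by
    intro n
    induction n with
    | zero => intro a; rw [hI0]; trivial
    | succ n ih =>
      intro a
      rw [pow_succ', ContinuousLinearMap.mul_apply]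
      exact hTI n _ (ih a)
  have hN : ∀ n : ℕ, ∃ N : ℕ, n < N ∧ (T ^ n) s ∉ I N := by
    intro n
    by_contra h
    push Not at h
    apply hc n
    apply hinter
    intro N
    by_cases hnN : n < N
    · exact h N hnN
    · exact hanti (not_lt.1 hnN) (hTn n s)
  choose N hN1 hN2 using hN
  let ν : ℕ → ℕ := fun k => Nat.rec 0 (fun _ m => N m) k
  have hν : ∀ k, ν (k + 1) = N (ν k) := fun k => rfl
  have hνmono : StrictMono ν := strictMono_nat_of_lt_succ (fun k => by rw [hν]; exact hN1 _)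
  -- unboundedness
  have hdis : ∀ k : ℕ, ∀ δ : ℝ, 0 < δ → ∀ M : ℝ, ∃ y : B, ‖y‖ ≤ δ ∧
      M ≤ ‖(I (ν (k + 1))).mkQ ((T ^ (ν k)) (θ y))‖ := by
    intro k δ hδ M
    set S := I (ν (k + 1)) with hS
    have : IsClosed (S : Set A) := hcl _
    have hne : S.mkQ ((T ^ (ν k)) s) ≠ 0 := by
      rw [Submodule.mkQ_apply, Ne, Submodule.Quotient.mk_eq_zero, hS, hν]
      exact hN2 (ν k)
    have hcpos : 0 < ‖S.mkQ ((T ^ (ν k)) s)‖ := norm_pos_iff.2 hne
    set c := ‖S.mkQ ((T ^ (ν k)) s)‖ with hcdef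
    set lam : ℝ := (|M| + 1) / c with hlam
    have hlam0 : 0 < lam := by positivity
    have hcont : Continuous (fun a : A => ‖S.mkQ ((T ^ (ν k)) a)‖) := by
      have : Continuous (fun a : A => S.mkQ ((T ^ (ν k)) a)) :=
        (Submodule.continuous_mkQ S).comp (T ^ (ν k)).continuous
      exact this.norm
    have h1 : Tendsto (fun j => lam * ‖S.mkQ ((T ^ (ν k)) (θ (x j)))‖) atTop (𝓝 (lam * c)) :=
      ((hcont.tendsto s).comp hs).const_mul lam
    have h2 : lam * c = |M| + 1 := by rw [hlam]; field_simp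
    rw [h2] at h1
    have h3 : ∀ᶠ j in atTop, |M| < lam * ‖S.mkQ ((T ^ (ν k)) (θ (x j)))‖ :=
      h1.eventually_const_lt (by linarith)
    have h4 : Tendsto (fun j => lam * ‖x j‖) atTop (𝓝 (lam * 0)) := by
      have := hx.norm
      rw [norm_zero] at this
      exact this.const_mul lam
    rw [mul_zero] at h4
    have h5 : ∀ᶠ j in atTop, lam * ‖x j‖ < δ := h4.eventually_lt_const hδ
    obtain ⟨j, hj3, hj5⟩ := (h3.and h5).exists
    refine ⟨(lam : ℂ) • x j, ?_, ?_⟩
    · rw [norm_smul]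
      simp only [Complex.norm_real, Real.norm_eq_abs, abs_of_pos hlam0]
      exact hj5.le
    · rw [map_smul, map_smul, map_smul, norm_smul]
      simp only [Complex.norm_real, Real.norm_eq_abs, abs_of_pos hlam0]
      exact (le_abs_self M).trans hj3.le
  -- the recursion
  set K : ℝ := 1 + ‖R‖ with hK
  have hK1 : 1 ≤ K := by rw [hK]; linarith [norm_nonneg R]
  set δ : ℕ → ℝ := fun k => (1 / 2) ^ k / K ^ (ν k) with hδdef
  have hδ : ∀ k, 0 < δ k := fun k => by rw [hδdef]; positivity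
  have hY : ∀ (k : ℕ) (p : B), ∃ y : B, ‖y‖ ≤ δ k ∧
      (k : ℝ) + ‖θ p‖ ≤ ‖(I (ν (k + 1))).mkQ ((T ^ (ν k)) (θ y))‖ :=
    fun k p => hdis k (δ k) (hδ k) _
  choose Y hY1 hY2 using hY
  let P : ℕ → B := fun k => Nat.rec 0 (fun k p => p + (R ^ (ν k)) (Y k p)) k
  have hP : ∀ k, P (k + 1) = P k + (R ^ (ν k)) (Y k (P k)) := fun k => rfl
  set y : ℕ → B := fun k => Y k (P k) with hydef
  have hRpow : ∀ n : ℕ, ‖R ^ n‖ ≤ K ^ n := by
    intro n
    induction n with
    | zero =>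
      simp only [pow_zero]
      exact ContinuousLinearMap.norm_id_le
    | succ n ih =>
      rw [pow_succ]
      calc ‖R ^ n * R‖ ≤ ‖R ^ n‖ * ‖R‖ := ContinuousLinearMap.opNorm_comp_le _ _
        _ ≤ K ^ n * K := by
            apply mul_le_mul ih _ (norm_nonneg _) (by positivity)
            rw [hK]; linarith
        _ = K ^ (n + 1) := (pow_succ K n).symm
  have hterm : ∀ m k : ℕ, m ≤ ν k → ‖(R ^ (ν k - m)) (y k)‖ ≤ (1 / 2) ^ k := by
    intro m k hm
    calc ‖(R ^ (ν k - m)) (y k)‖ ≤ ‖R ^ (ν k - m)‖ * ‖y k‖ := ContinuousLinearMap.le_opNorm _ _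
      _ ≤ K ^ (ν k - m) * δ k := mul_le_mul (hRpow _) (hY1 _ _) (norm_nonneg _) (by positivity)
      _ ≤ K ^ (ν k) * δ k := by
          apply mul_le_mul_of_nonneg_right _ (hδ k).le
          exact pow_le_pow_right₀ hK1 (Nat.sub_le _ _)
      _ = (1 / 2) ^ k := by
          rw [hδdef]
          field_simp
  have hgeo : Summable (fun k : ℕ => ((1 : ℝ) / 2) ^ k) :=
    summable_geometric_of_lt_one (by norm_num) (by norm_num)
  have hsum : Summable (fun k => (R ^ (ν k)) (y k)) := by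
    apply Summable.of_norm_bounded hgeo
    intro k
    have := hterm 0 k (Nat.zero_le _)
    simpa using this
  have hPsum : ∀ k, P k = ∑ j ∈ Finset.range k, (R ^ (ν j)) (y j) := by
    intro k
    induction k with
    | zero => rfl
    | succ k ih => rw [hP, Finset.sum_range_succ, ← ih]
  set z : B := ∑' k, (R ^ (ν k)) (y k) with hz
  have hbig : ∀ k : ℕ, (k : ℝ) ≤ ‖θ z‖ := by
    intro k
    -- tail
    have hsumw : Summable (fun j => (R ^ (ν (j + (k + 1)) - ν (k + 1))) (y (j + (k + 1)))) := by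
      apply Summable.of_norm_bounded ((summable_nat_add_iff (k + 1)).2 hgeo)
      intro j
      exact hterm _ _ (hνmono.monotone (show k + 1 ≤ j + (k + 1) by omega))
    set w : B := ∑' j, (R ^ (ν (j + (k + 1)) - ν (k + 1))) (y (j + (k + 1))) with hw
    have hzw : z = P k + (R ^ (ν k)) (y k) + (R ^ (ν (k + 1))) w := by
      rw [hz, ← hsum.sum_add_tsum_nat_add (k + 1), ← hPsum (k + 1), hP]
      congr 1
      rw [hw, ContinuousLinearMap.map_tsum _ hsumw]
      congr 1
      funext j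
      rw [← ContinuousLinearMap.mul_apply, ← pow_add]
      congr 2
      have : ν (k + 1) ≤ ν (j + (k + 1)) :=
        hνmono.monotone (show k + 1 ≤ j + (k + 1) by omega)
      omega
    have hθR : ∀ (n : ℕ) (v : B), θ ((R ^ n) v) = (T ^ n) (θ v) := by
      intro n
      induction n with
      | zero => intro v; simp
      | succ n ih =>
        intro v
        rw [pow_succ', pow_succ', ContinuousLinearMap.mul_apply, ContinuousLinearMap.mul_apply,
          hRT, ih]
    have hθz : θ z = θ (P k) + (T ^ (ν k)) (θ (y k)) + (T ^ (ν (k + 1))) (θ w) := by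
      rw [hzw, map_add, map_add, hθR, hθR]
    set S := I (ν (k + 1)) with hS
    have hq : S.mkQ (θ z) = S.mkQ (θ (P k)) + S.mkQ ((T ^ (ν k)) (θ (y k))) := by
      rw [hθz, map_add, map_add]
      have : S.mkQ ((T ^ (ν (k + 1))) (θ w)) = 0 := by
        rw [Submodule.mkQ_apply, Submodule.Quotient.mk_eq_zero]
        exact hTn _ _
      rw [this, add_zero]
    have hle : ∀ a : A, ‖S.mkQ a‖ ≤ ‖a‖ := fun a => Submodule.Quotient.norm_mk_le S a
    have h1 := hY2 k (P k)
    have h2 : ‖S.mkQ ((T ^ (ν k)) (θ (y k)))‖ ≤ ‖S.mkQ (θ z)‖ + ‖S.mkQ (θ (P k))‖ := by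
      have : S.mkQ ((T ^ (ν k)) (θ (y k))) = S.mkQ (θ z) - S.mkQ (θ (P k)) := by
        rw [hq]; abel
      rw [this]
      exact norm_sub_le _ _
    have h3 := hle (θ z)
    have h4 := hle (θ (P k))
    have h5 : (k : ℝ) + ‖θ (P k)‖ ≤ ‖S.mkQ ((T ^ (ν k)) (θ (y k)))‖ := h1
    linarith
  obtain ⟨k, hk⟩ := exists_nat_gt ‖θ z‖
  exact absurd (hbig k) (not_le.2 hk)

end Gliding

end Pool.Agent.Helper988.AC
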