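import Pool.Agent.Helper988.AC.Seq

set_option autoImplicit false
open Filter Topology

namespace Pool.Agent.Helper988.AC

/-- `a 0 * (a 1 * ( ... * (a (n-1) * y)))` -/
def lprod {A : Type} [Mul A] (a : ℕ → A) : ℕ → A → A
  | 0, y => y
  | n + 1, y => lprod a n (a n * y)

section Dense

variable {A : Type} [NonUnitalNormedRing A] [NormedSpace ℂ A] [IsScalarTower ℂ A A]
  [SMulCommClass ℂ A A]
  {B : Type} [NonUnitalNormedRing B] [NormedSpace ℂ B] [IsScalarTower ℂ B B]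
  [SMulCommClass ℂ B B]

omit [IsScalarTower ℂ A A] [SMulCommClass ℂ A A] [IsScalarTower ℂ B B] [SMulCommClass ℂ B B] in
lemma Sep_mul_left (θ : B →ₗ[ℂ] A) (hθ : ∀ x y, θ (x * y) = θ x * θ y) (hd : DenseRange θ)
    (a s : A) (hs : s ∈ Sep θ) : a * s ∈ Sep θ := by
  intro ε hε
  obtain ⟨b, hb⟩ : ∃ b : B, ‖a - θ b‖ < ε / (2 * (‖s‖ + 1)) := by
    obtain ⟨b, hb⟩ := hd.exists_dist_lt a (show 0 < ε / (2 * (‖s‖ + 1)) by positivity)
    exact ⟨b, by rwa [dist_eq_norm] at hb⟩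
  obtain ⟨x, hx1, hx2⟩ := hs (min (ε / (‖b‖ + 1)) (ε / (2 * (‖θ b‖ + 1))))
    (lt_min (by positivity) (by positivity))
  have hx1' := hx1.trans_le (min_le_left _ _)
  have hx2' := hx2.trans_le (min_le_right _ _)
  rw [lt_div_iff₀ (by positivity)] at hb hx1' hx2'
  refine ⟨b * x, ?_, ?_⟩
  · calc ‖b * x‖ ≤ ‖b‖ * ‖x‖ := norm_mul_le _ _
      _ ≤ ‖x‖ * (‖b‖ + 1) := by nlinarith [norm_nonneg x]
      _ < ε := hx1'
  · have h : θ (b * x) - a * s = θ b * (θ x - s) - (a - θ b) * s := by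
      rw [hθ, mul_sub, sub_mul]; abel
    rw [h]
    calc ‖θ b * (θ x - s) - (a - θ b) * s‖ ≤ ‖θ b * (θ x - s)‖ + ‖(a - θ b) * s‖ := norm_sub_le _ _
      _ ≤ ‖θ b‖ * ‖θ x - s‖ + ‖a - θ b‖ * ‖s‖ := add_le_add (norm_mul_le _ _) (norm_mul_le _ _)
      _ < ε := by nlinarith [norm_nonneg (θ x - s), norm_nonneg (a - θ b)]

omit [IsScalarTower ℂ A A] [SMulCommClass ℂ A A] [IsScalarTower ℂ B B] [SMulCommClass ℂ B B] in
lemma Sep_mul_right (θ : B →ₗ[ℂ] A) (hθ : ∀ x y, θ (x * y) = θ x * θ y) (hd : DenseRange θ)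
    (s a : A) (hs : s ∈ Sep θ) : s * a ∈ Sep θ := by
  intro ε hε
  obtain ⟨b, hb⟩ : ∃ b : B, ‖a - θ b‖ < ε / (2 * (‖s‖ + 1)) := by
    obtain ⟨b, hb⟩ := hd.exists_dist_lt a (show 0 < ε / (2 * (‖s‖ + 1)) by positivity)
    exact ⟨b, by rwa [dist_eq_norm] at hb⟩
  obtain ⟨x, hx1, hx2⟩ := hs (min (ε / (‖b‖ + 1)) (ε / (2 * (‖θ b‖ + 1))))
    (lt_min (by positivity) (by positivity))
  have hx1' := hx1.trans_le (min_le_left _ _)
  have hx2' := hx2.trans_le (min_le_right _ _)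
  rw [lt_div_iff₀ (by positivity)] at hb hx1' hx2'
  refine ⟨x * b, ?_, ?_⟩
  · calc ‖x * b‖ ≤ ‖x‖ * ‖b‖ := norm_mul_le _ _
      _ ≤ ‖x‖ * (‖b‖ + 1) := by nlinarith [norm_nonneg x]
      _ < ε := hx1'
  · have h : θ (x * b) - s * a = (θ x - s) * θ b - s * (a - θ b) := by
      rw [hθ, mul_sub, sub_mul]; abel
    rw [h]
    calc ‖(θ x - s) * θ b - s * (a - θ b)‖ ≤ ‖(θ x - s) * θ b‖ + ‖s * (a - θ b)‖ :=
          norm_sub_le _ _
      _ ≤ ‖θ x - s‖ * ‖θ b‖ + ‖s‖ * ‖a - θ b‖ := add_le_add (norm_mul_le _ _) (norm_mul_le _ _)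
      _ < ε := by nlinarith [norm_nonneg (θ x - s), norm_nonneg (a - θ b)]

variable {V : Type} [AddCommGroup V] [Module ℂ V] [TopologicalSpace V] [IsTopologicalAddGroup V]
  [ContinuousSMul ℂ V] [T2Space V] [FiniteDimensional ℂ V]

omit [IsScalarTower ℂ A A] [SMulCommClass ℂ A A] [IsScalarTower ℂ B B] [SMulCommClass ℂ B B] in
/-- elements of the separating space are limits of values at elements of the kernel of `Ψ ∘ θ` -/
lemma Sep_approx (θ : B →ₗ[ℂ] A) (Ψ : A →ₗ[ℂ] V) (hΨθ : Continuous (fun b => Ψ (θ b)))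
    {s : A} (hs : s ∈ Sep θ) :
    ∃ x : ℕ → B, (∀ j, Ψ (θ (x j)) = 0) ∧ Tendsto (fun j => θ (x j)) atTop (𝓝 s) := by
  obtain ⟨u, hu, hus⟩ := Sep_seq θ hs
  let Φ : B →ₗ[ℂ] V := Ψ.comp θ
  have hΦc : Continuous Φ := hΨθ
  obtain ⟨g, hg⟩ := Φ.rangeRestrict.exists_rightInverse_of_surjective Φ.range_rangeRestrict
  have hθgc : Continuous (θ.comp g) := LinearMap.continuous_of_finiteDimensional _
  have hrc : Continuous Φ.rangeRestrict := hΦc.subtype_mk _
  have hr0 : Tendsto (fun j => Φ.rangeRestrict (u j)) atTop (𝓝 0) := by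
    have := (hrc.tendsto 0).comp hu
    rw [map_zero] at this
    exact this
  refine ⟨fun j => u j - g (Φ.rangeRestrict (u j)), ?_, ?_⟩
  · intro j
    have h1 : Φ.rangeRestrict (g (Φ.rangeRestrict (u j))) = Φ.rangeRestrict (u j) :=
      LinearMap.congr_fun hg (Φ.rangeRestrict (u j))
    have h2 : Φ (g (Φ.rangeRestrict (u j))) = Φ (u j) := congrArg Subtype.val h1
    show Φ (u j - g (Φ.rangeRestrict (u j))) = 0
    rw [map_sub, h2, sub_self]
  · have h1 := (hθgc.tendsto 0).comp hr0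
    rw [map_zero] at h1
    have := hus.sub h1
    rw [sub_zero] at this
    refine this.congr (fun j => ?_)
    simp only [map_sub, Function.comp, LinearMap.comp_apply]

/-- the main result on homomorphisms with dense range -/
theorem dense_cont [CompleteSpace A] [CompleteSpace B]
    (hsp : ∀ a : A, (∀ x, a * x * a = 0) → a = 0)
    (Ψ : A →ₗ[ℂ] V) (hΨ : ∀ a c, Ψ a = 0 → Ψ (a * c) = 0)
    (hnd : ∀ a : ℕ → A, (∀ n, Ψ (a n) = 0) → ∀ x : A,
      (∀ n, x ∈ closure (Set.range (fun y => lprod a n y))) → x = 0)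
    (θ : B →ₗ[ℂ] A) (hθ : ∀ x y, θ (x * y) = θ x * θ y) (hd : DenseRange θ)
    (hΨθ : Continuous (fun b => Ψ (θ b))) : Continuous θ := by
  -- multiplication by `a` kills products
  have hkill : ∀ a : A, (∀ b : B, Ψ (θ b) = 0 → ∀ s ∈ Sep θ, a * (θ b * s) = 0) →
      ∀ s' ∈ Sep θ, ∀ s ∈ Sep θ, a * (s' * s) = 0 := by
    intro a ha s' hs' s hs
    obtain ⟨x, hx1, hx2⟩ := Sep_approx θ Ψ hΨθ hs'
    have hlim : Tendsto (fun j => a * (θ (x j) * s)) atTop (𝓝 (a * (s' * s))) :=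
      (hx2.mul_const s).const_mul a
    have h0 : Tendsto (fun j => a * (θ (x j) * s)) atTop (𝓝 0) := by
      have : (fun j => a * (θ (x j) * s)) = fun _ => (0 : A) :=
        funext (fun j => ha (x j) (hx1 j) s hs)
      rw [this]
      exact tendsto_const_nhds
    exact tendsto_nhds_unique hlim h0
  have hkill' : (∀ b : B, Ψ (θ b) = 0 → ∀ s ∈ Sep θ, θ b * s = 0) →
      ∀ s' ∈ Sep θ, ∀ s ∈ Sep θ, s' * s = 0 := by
    intro ha s' hs' s hs
    obtain ⟨x, hx1, hx2⟩ := Sep_approx θ Ψ hΨθ hs'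
    have hlim : Tendsto (fun j => θ (x j) * s) atTop (𝓝 (s' * s)) := hx2.mul_const s
    have h0 : Tendsto (fun j => θ (x j) * s) atTop (𝓝 0) := by
      have : (fun j => θ (x j) * s) = fun _ => (0 : A) :=
        funext (fun j => ha (x j) (hx1 j) s hs)
      rw [this]
      exact tendsto_const_nhds
    exact tendsto_nhds_unique hlim h0
  -- extension step
  have hstep : ∀ c : B, (∃ s ∈ Sep θ, θ c * s ≠ 0) →
      ∃ b : B, Ψ (θ b) = 0 ∧ ∃ s ∈ Sep θ, θ c * (θ b * s) ≠ 0 := by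
    intro c hc
    by_contra hcon
    push Not at hcon
    obtain ⟨s, hs, hcs⟩ := hc
    apply hcs
    apply hsp
    intro x
    have h1 := hkill (θ c) hcon (s * x * θ c)
      (Sep_mul_right θ hθ hd _ _ (Sep_mul_right θ hθ hd _ _ hs)) s hs
    calc θ c * s * x * (θ c * s) = θ c * (s * x * θ c * s) := by simp only [mul_assoc]
      _ = 0 := h1
  -- claim A
  have hA : ∀ b : B, Ψ (θ b) = 0 → ∀ s ∈ Sep θ, θ b * s = 0 := by
    by_contra hcon
    push Not at hcon
    obtain ⟨b0, hb0, s0, hs0, hbs0⟩ := hcon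
    let G : Type := {c : B // Ψ (θ c) = 0 ∧ ∃ s ∈ Sep θ, θ c * s ≠ 0}
    have hf : ∀ c : G, ∃ b : B, Ψ (θ b) = 0 ∧ ∃ s ∈ Sep θ, θ c.1 * (θ b * s) ≠ 0 :=
      fun c => hstep c.1 c.2.2
    choose f hf1 hf2 using hf
    have hnext : ∀ c : G, Ψ (θ (c.1 * f c)) = 0 ∧ ∃ s ∈ Sep θ, θ (c.1 * f c) * s ≠ 0 := by
      intro c
      refine ⟨by rw [hθ]; exact hΨ _ _ c.2.1, ?_⟩
      obtain ⟨s, hs, h⟩ := hf2 c
      exact ⟨s, hs, by rwa [hθ, mul_assoc]⟩
    let cs : ℕ → G := fun n => Nat.rec (⟨b0, hb0, s0, hs0, hbs0⟩ : G)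
      (fun _ c => ⟨c.1 * f c, hnext c⟩) n
    have hcs : ∀ n, (cs (n + 1)).1 = (cs n).1 * f (cs n) := fun n => rfl
    let bs : ℕ → B := fun n => Nat.casesOn n b0 (fun n => f (cs n))
    have hbs : ∀ n, bs (n + 1) = f (cs n) := fun n => rfl
    have hbsΨ : ∀ n, Ψ (θ (bs n)) = 0 := by
      intro n
      cases n with
      | zero => exact hb0
      | succ n => exact hf1 _
    let R : ℕ → (B →L[ℂ] B) := fun i => ContinuousLinearMap.mul ℂ B (bs i)
    let T : ℕ → (A →L[ℂ] A) := fun i => ContinuousLinearMap.mul ℂ A (θ (bs i))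
    have hTc : ∀ n a, (opProd T 0 (n + 1)) a = θ (cs n).1 * a := by
      intro n
      induction n with
      | zero => intro a; rfl
      | succ n ih =>
        intro a
        show (opProd T 0 (n + 1)) (T (0 + (n + 1)) a) = _
        rw [ih, hcs, hθ, mul_assoc]
        show θ (cs n).1 * (θ (bs (0 + (n + 1))) * a) = _
        rw [zero_add, hbs]
    have hTl : ∀ n a, (opProd T 0 n) a = lprod (fun i => θ (bs i)) n a := by
      intro n
      induction n with
      | zero => intro a; rfl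
      | succ n ih =>
        intro a
        show (opProd T 0 n) (T (0 + n) a) = lprod (fun i => θ (bs i)) n (θ (bs n) * a)
        rw [ih, zero_add]; rfl
    refine gliding_seq θ R T (fun i x => hθ (bs i) x)
      (fun n => (LinearMap.range ((opProd T 0 n : A →L[ℂ] A) : A →ₗ[ℂ] A)).topologicalClosure)
      ?_ (fun n => Submodule.isClosed_topologicalClosure _) ?_ ?_ ?_
    · apply antitone_nat_of_succ_le
      intro n
      apply Submodule.topologicalClosure_mono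
      rintro v ⟨y, rfl⟩
      exact ⟨T (0 + n) y, rfl⟩
    · intro n a
      exact Submodule.le_topologicalClosure _ ⟨a, rfl⟩
    · intro a ha
      refine hnd (fun i => θ (bs i)) hbsΨ a (fun n => ?_)
      have h1 : a ∈ closure ((LinearMap.range ((opProd T 0 n : A →L[ℂ] A) : A →ₗ[ℂ] A) :
        Submodule ℂ A) : Set A) := ha n
      have h2 : ((LinearMap.range ((opProd T 0 n : A →L[ℂ] A) : A →ₗ[ℂ] A) :
          Submodule ℂ A) : Set A) ⊆ Set.range (fun y => lprod (fun i => θ (bs i)) n y) := by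
        rintro v ⟨y, rfl⟩
        exact ⟨y, (hTl n y).symm⟩
      exact closure_mono h2 h1
    · intro n
      cases n with
      | zero =>
        refine ⟨s0, hs0, ?_⟩
        intro h
        apply hbs0
        have h' : s0 = 0 := h
        rw [h', mul_zero]
      | succ n =>
        obtain ⟨s, hs, h⟩ := (cs n).2.2
        exact ⟨s, hs, by rw [hTc]; exact h⟩
  have hS : ∀ s ∈ Sep θ, s = 0 := by
    intro s hs
    apply hsp
    intro x
    exact hkill' hA (s * x) (Sep_mul_right θ hθ hd _ _ hs) s hs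
  apply LinearMap.continuous_of_seq_closed_graph
  intro u x0 y0 hu hy
  have hx : Tendsto (fun j => u j - x0) atTop (𝓝 0) := by
    have := hu.sub_const x0
    rwa [sub_self] at this
  have hs : Tendsto (fun j => θ (u j - x0)) atTop (𝓝 (y0 - θ x0)) := by
    have := hy.sub_const (θ x0)
    refine this.congr (fun j => ?_)
    simp [map_sub]
  exact sub_eq_zero.1 (hS _ (Sep_of_seq θ _ hx hs))

end Dense

end Pool.Agent.Helper988.AC
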