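import Pool.Agent.Helper988.AC.Dense2

set_option autoImplicit false
open Filter Topology

namespace Pool.Agent.Helper988.AC

section Dense

variable {A : Type} [NonUnitalNormedRing A] [NormedSpace ℂ A] [IsScalarTower ℂ A A]
  [SMulCommClass ℂ A A]
  {B : Type} [NonUnitalNormedRing B] [NormedSpace ℂ B] [IsScalarTower ℂ B B]
  [SMulCommClass ℂ B B]

/-- the main result on homomorphisms with dense range, two-sided version -/
theorem dense_cont3 [CompleteSpace A] [CompleteSpace B]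
    (hsp : ∀ a : A, (∀ x, a * x * a = 0) → a = 0) (θ : B →ₗ[ℂ] A)
    (J : B → Prop) (hJ : ∀ a c, J a → J (a * c)) (hJ' : ∀ a c, J c → J (a * c))
    (hnd : ∀ a c : ℕ → B, (∀ n, J (a n)) → (∀ n, J (c n)) → ∀ x : A,
      (∀ n, x ∈ closure (Set.range (fun y => biprod (fun i => θ (a i)) (fun i => θ (c i)) n y))) →
        x = 0)
    (hθ : ∀ x y, θ (x * y) = θ x * θ y) (hd : DenseRange θ)
    (hJθ : ∀ s ∈ Sep θ, s ∈ closure (θ '' {b | J b})) : Continuous θ := by
  -- limits
  have hlimit : ∀ (F : A → A), Continuous F → (∀ b : B, J b → F (θ b) = 0) →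
      ∀ s ∈ Sep θ, F s = 0 := by
    intro F hF h s hs
    have hcl : IsClosed {x : A | F x = 0} := isClosed_eq hF continuous_const
    have hsub : θ '' {b | J b} ⊆ {x : A | F x = 0} := by
      rintro _ ⟨b, hb, rfl⟩
      exact h b hb
    exact closure_minimal hsub hcl (hJθ s hs)
  have hkill : ∀ p q : A, (∀ b b' : B, J b → J b' → ∀ s ∈ Sep θ,
      p * (θ b * s * θ b') * q = 0) →
      ∀ s₁ ∈ Sep θ, ∀ s₂ ∈ Sep θ, ∀ s₃ ∈ Sep θ, p * (s₁ * s₂ * s₃) * q = 0 := by
    intro p q h s₁ h₁ s₂ h₂ s₃ h₃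
    refine hlimit (fun u => p * (s₁ * s₂ * u) * q) (by fun_prop) (fun b' hb' => ?_) s₃ h₃
    exact hlimit (fun u => p * (u * s₂ * θ b') * q) (by fun_prop)
      (fun b hb => h b b' hb hb' s₂ h₂) s₁ h₁
  have hkill' : (∀ b b' : B, J b → J b' → ∀ s ∈ Sep θ,
      θ b * s * θ b' = 0) →
      ∀ s₁ ∈ Sep θ, ∀ s₂ ∈ Sep θ, ∀ s₃ ∈ Sep θ, s₁ * s₂ * s₃ = 0 := by
    intro h s₁ h₁ s₂ h₂ s₃ h₃
    refine hlimit (fun u => s₁ * s₂ * u) (by fun_prop) (fun b' hb' => ?_) s₃ h₃
    exact hlimit (fun u => u * s₂ * θ b') (by fun_prop)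
      (fun b hb => h b b' hb hb' s₂ h₂) s₁ h₁
  -- extension step
  have hstep : ∀ p q : B, (∃ s ∈ Sep θ, θ p * s * θ q ≠ 0) →
      ∃ b : B × B, J b.1 ∧ J b.2 ∧
        ∃ s ∈ Sep θ, θ p * (θ b.1 * s * θ b.2) * θ q ≠ 0 := by
    intro p q hc
    by_contra hcon
    push Not at hcon
    obtain ⟨s, hs, hcs⟩ := hc
    apply hcs
    apply semiprime3 hsp
    intro x x'
    have h1 := hkill (θ p) (θ q) (fun b b' h h' => hcon (b, b') h h') s hs
      (θ q * x * θ p * s * (θ q * x' * θ p))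
      (Sep_mul_right θ hθ hd _ _ (Sep_mul_left θ hθ hd _ _ hs)) s hs
    calc θ p * s * θ q * x * (θ p * s * θ q) * x' * (θ p * s * θ q)
        = θ p * (s * (θ q * x * θ p * s * (θ q * x' * θ p)) * s) * θ q := by
          simp only [mul_assoc]
      _ = 0 := h1
  -- claim A
  have hA : ∀ b b' : B, J b → J b' → ∀ s ∈ Sep θ, θ b * s * θ b' = 0 := by
    by_contra hcon
    push Not at hcon
    obtain ⟨b0, b0', hb0, hb0', s0, hs0, hbs0⟩ := hcon
    let G : Type := {c : B × B // J c.1 ∧ J c.2 ∧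
      ∃ s ∈ Sep θ, θ c.1 * s * θ c.2 ≠ 0}
    have hf : ∀ c : G, ∃ b : B × B, J b.1 ∧ J b.2 ∧
        ∃ s ∈ Sep θ, θ c.1.1 * (θ b.1 * s * θ b.2) * θ c.1.2 ≠ 0 :=
      fun c => hstep c.1.1 c.1.2 c.2.2.2
    choose f hf1 hf2 hf3 using hf
    have hnext : ∀ c : G, J (c.1.1 * (f c).1) ∧ J ((f c).2 * c.1.2) ∧
        ∃ s ∈ Sep θ, θ (c.1.1 * (f c).1) * s * θ ((f c).2 * c.1.2) ≠ 0 := by
      intro c
      refine ⟨hJ _ _ c.2.1, hJ' _ _ c.2.2.1, ?_⟩
      obtain ⟨s, hs, h⟩ := hf3 c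
      refine ⟨s, hs, ?_⟩
      rw [hθ, hθ]
      intro h0
      apply h
      calc θ c.1.1 * (θ (f c).1 * s * θ (f c).2) * θ c.1.2
          = θ c.1.1 * θ (f c).1 * s * (θ (f c).2 * θ c.1.2) := by simp only [mul_assoc]
        _ = 0 := h0
    let cs : ℕ → G := fun n => Nat.rec (⟨(b0, b0'), hb0, hb0', s0, hs0, hbs0⟩ : G)
      (fun _ c => ⟨(c.1.1 * (f c).1, (f c).2 * c.1.2), hnext c⟩) n
    have hcs1 : ∀ n, (cs (n + 1)).1.1 = (cs n).1.1 * (f (cs n)).1 := fun n => rfl
    have hcs2 : ∀ n, (cs (n + 1)).1.2 = (f (cs n)).2 * (cs n).1.2 := fun n => rfl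
    let bs : ℕ → B × B := fun n => Nat.casesOn n (b0, b0') (fun n => f (cs n))
    have hbs : ∀ n, bs (n + 1) = f (cs n) := fun n => rfl
    have hbsΨ : ∀ n, J (bs n).1 := by
      intro n
      cases n with
      | zero => exact hb0
      | succ n => exact hf1 _
    have hbsΨ' : ∀ n, J (bs n).2 := by
      intro n
      cases n with
      | zero => exact hb0'
      | succ n => exact hf2 _
    let R : ℕ → (B →L[ℂ] B) := fun i =>
      ((ContinuousLinearMap.mul ℂ B).flip (bs i).2).comp (ContinuousLinearMap.mul ℂ B (bs i).1)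
    let T : ℕ → (A →L[ℂ] A) := fun i =>
      ((ContinuousLinearMap.mul ℂ A).flip (θ (bs i).2)).comp
        (ContinuousLinearMap.mul ℂ A (θ (bs i).1))
    have hT : ∀ i a, T i a = θ (bs i).1 * a * θ (bs i).2 := fun i a => rfl
    have hR : ∀ i a, R i a = (bs i).1 * a * (bs i).2 := fun i a => rfl
    have hTc : ∀ n a, (opProd T 0 (n + 1)) a = θ (cs n).1.1 * a * θ (cs n).1.2 := by
      intro n
      induction n with
      | zero => intro a; rfl
      | succ n ih =>
        intro a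
        show (opProd T 0 (n + 1)) (T (0 + (n + 1)) a) = _
        rw [ih, hcs1, hcs2, hθ, hθ, hT, zero_add, hbs]
        simp only [mul_assoc]
    have hTl : ∀ n a, (opProd T 0 n) a =
        biprod (fun i => θ (bs i).1) (fun i => θ (bs i).2) n a := by
      intro n
      induction n with
      | zero => intro a; rfl
      | succ n ih =>
        intro a
        show (opProd T 0 n) (T (0 + n) a) =
          biprod (fun i => θ (bs i).1) (fun i => θ (bs i).2) n (θ (bs n).1 * a * θ (bs n).2)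
        rw [ih, zero_add]; rfl
    refine gliding_seq θ R T (fun i x => by rw [hR, hT, hθ, hθ])
      (fun n => (LinearMap.range ((opProd T 0 n : A →L[ℂ] A) : A →ₗ[ℂ] A)).topologicalClosure)
      ?_ (fun n => Submodule.isClosed_topologicalClosure _) ?_ ?_ ?_
    · apply antitone_nat_of_succ_le
      intro n
      apply Submodule.topologicalClosure_mono
      rintro v ⟨y, rfl⟩
      exact ⟨T (0 + n) y, rfl⟩
    · intro n a
      exact Submodule.le_topologicalClosure _ ⟨a, rfl⟩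
    · intro a ha
      refine hnd (fun i => (bs i).1) (fun i => (bs i).2) hbsΨ hbsΨ' a (fun n => ?_)
      have h1 : a ∈ closure ((LinearMap.range ((opProd T 0 n : A →L[ℂ] A) : A →ₗ[ℂ] A) :
        Submodule ℂ A) : Set A) := ha n
      have h2 : ((LinearMap.range ((opProd T 0 n : A →L[ℂ] A) : A →ₗ[ℂ] A) :
          Submodule ℂ A) : Set A) ⊆
          Set.range (fun y => biprod (fun i => θ (bs i).1) (fun i => θ (bs i).2) n y) := by
        rintro v ⟨y, rfl⟩
        exact ⟨y, (hTl n y).symm⟩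
      exact closure_mono h2 h1
    · intro n
      cases n with
      | zero =>
        refine ⟨s0, hs0, ?_⟩
        intro h
        apply hbs0
        have h' : s0 = 0 := h
        rw [h', mul_zero, zero_mul]
      | succ n =>
        obtain ⟨s, hs, h⟩ := (cs n).2.2.2
        exact ⟨s, hs, by rw [hTc]; exact h⟩
  have hS : ∀ s ∈ Sep θ, s = 0 := by
    intro s hs
    apply semiprime3 hsp
    intro x x'
    have h1 := hkill' hA (s * x) (Sep_mul_right θ hθ hd _ _ hs) s hs (x' * s)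
      (Sep_mul_left θ hθ hd _ _ hs)
    calc s * x * s * x' * s = s * x * s * (x' * s) := by simp only [mul_assoc]
      _ = 0 := h1
  apply LinearMap.continuous_of_seq_closed_graph
  intro u x0 y0 hu hy
  have hx : Tendsto (fun j => u j - x0) atTop (𝓝 0) := by
    have := hu.sub_const x0
    rwa [sub_self] at this
  have hs : Tendsto (fun j => θ (u j - x0)) atTop (𝓝 (y0 - θ x0)) := by
    have := hy.sub_const (θ x0)
    refine this.congr (fun j => ?_)
    simp [map_sub]
  exact sub_eq_zero.1 (hS _ (Sep_of_seq θ _ hx hs))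

end Dense

end Pool.Agent.Helper988.AC
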