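import Pool.Agent.Helper988.AC.Seq

set_option autoImplicit false
open Filter Topology

namespace Pool.Agent.Helper988.AC

section GlidingErr

variable {B A : Type} [NormedAddCommGroup B] [NormedSpace ℂ B] [CompleteSpace B]
  [NormedAddCommGroup A] [NormedSpace ℂ A]

/-- the gliding hump lemma for a sequence of pairs of operators, along `ν` -/
lemma gliding_err (θ : B →ₗ[ℂ] A) (R : ℕ → (B →L[ℂ] B)) (T : ℕ → (A →L[ℂ] A))
    (e : ℕ → (B →L[ℂ] A)) (hRT : ∀ i x, θ (R i x) = T i (θ x) + e i x)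
    (I : ℕ → Submodule ℂ A)
    (hcl : ∀ n, IsClosed (I n : Set A)) (hTn : ∀ n a, (opProd T 0 n) a ∈ I n)
    (ν : ℕ → ℕ) (hνmono : StrictMono ν)
    (hsep : ∀ k, ∃ s ∈ Sep θ, (opProd T 0 (ν k)) s ∉ I (ν (k + 1))) : False := by
  choose sq hsq1 hsq2 using hsep
  -- unboundedness
  have hdis : ∀ k : ℕ, ∀ δ : ℝ, 0 < δ → ∀ M : ℝ, ∃ y : B, ‖y‖ ≤ δ ∧
      M ≤ ‖(I (ν (k + 1))).mkQ ((opProd T 0 (ν k)) (θ y))‖ := by
    intro k δ hδ M
    obtain ⟨x, hx, hs⟩ := Sep_seq θ (hsq1 k)
    set s := sq k with hsdef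
    set S := I (ν (k + 1)) with hS
    have : IsClosed (S : Set A) := hcl _
    have hne : S.mkQ ((opProd T 0 (ν k)) s) ≠ 0 := by
      rw [Submodule.mkQ_apply, Ne, Submodule.Quotient.mk_eq_zero, hS]
      exact hsq2 k
    have hcpos : 0 < ‖S.mkQ ((opProd T 0 (ν k)) s)‖ := norm_pos_iff.2 hne
    set c := ‖S.mkQ ((opProd T 0 (ν k)) s)‖ with hcdef
    set lam : ℝ := (|M| + 1) / c with hlam
    have hlam0 : 0 < lam := by positivity
    have hcont : Continuous (fun a : A => ‖S.mkQ ((opProd T 0 (ν k)) a)‖) := by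
      have : Continuous (fun a : A => S.mkQ ((opProd T 0 (ν k)) a)) :=
        (Submodule.continuous_mkQ S).comp (opProd T 0 (ν k)).continuous
      exact this.norm
    have h1 : Tendsto (fun j => lam * ‖S.mkQ ((opProd T 0 (ν k)) (θ (x j)))‖) atTop
        (𝓝 (lam * c)) :=
      ((hcont.tendsto s).comp hs).const_mul lam
    have h2 : lam * c = |M| + 1 := by rw [hlam]; field_simp
    rw [h2] at h1
    have h3 : ∀ᶠ j in atTop, |M| < lam * ‖S.mkQ ((opProd T 0 (ν k)) (θ (x j)))‖ :=
      h1.eventually_const_lt (by linarith)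
    have h4 : Tendsto (fun j => lam * ‖x j‖) atTop (𝓝 (lam * 0)) := by
      have := hx.norm
      rw [norm_zero] at this
      exact this.const_mul lam
    rw [mul_zero] at h4
    have h5 : ∀ᶠ j in atTop, lam * ‖x j‖ < δ := h4.eventually_lt_const hδ
    obtain ⟨j, hj3, hj5⟩ := (h3.and h5).exists
    refine ⟨(lam : ℂ) • x j, ?_, ?_⟩
    · rw [norm_smul]
      simp only [Complex.norm_real, Real.norm_eq_abs, abs_of_pos hlam0]
      exact hj5.le
    · rw [map_smul, map_smul, map_smul, norm_smul]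
      simp only [Complex.norm_real, Real.norm_eq_abs, abs_of_pos hlam0]
      exact (le_abs_self M).trans hj3.le
  -- the errors
  let E : ℕ → (B →L[ℂ] A) := fun n => Nat.rec 0
    (fun n E => E.comp (R (0 + n)) + (opProd T 0 n).comp (e (0 + n))) n
  have hE : ∀ n, E (n + 1) = (E n).comp (R (0 + n)) + (opProd T 0 n).comp (e (0 + n)) :=
    fun n => rfl
  have hθR : ∀ (n : ℕ) (v : B), θ ((opProd R 0 n) v) = (opProd T 0 n) (θ v) + E n v := by
    intro n
    induction n with
    | zero =>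
      intro v
      show θ v = θ v + 0
      rw [add_zero]
    | succ n ih =>
      intro v
      show θ ((opProd R 0 n) (R (0 + n) v)) = (opProd T 0 n) (T (0 + n) (θ v)) +
        (E n (R (0 + n) v) + (opProd T 0 n) (e (0 + n) v))
      rw [ih, hRT, map_add]
      abel
  set L : ℕ → ℝ := fun n => ∏ i ∈ Finset.range (n + 1), (1 + ‖E i‖) with hL
  have hLpos : ∀ n, 0 < L n := fun n => Finset.prod_pos (fun i _ => by positivity)
  have hL1 : ∀ n, 1 ≤ L n := by
    intro n
    induction n with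
    | zero =>
      simp only [hL, zero_add, Finset.prod_range_one]
      linarith [norm_nonneg (E 0)]
    | succ n ih =>
      have hs : L (n + 1) = L n * (1 + ‖E (n + 1)‖) := Finset.prod_range_succ _ _
      have h2 := norm_nonneg (E (n + 1))
      rw [hs]; nlinarith
  have hLE : ∀ m n, m ≤ n → ‖E m‖ ≤ L n := by
    intro m n hmn
    induction n with
    | zero =>
      obtain rfl : m = 0 := by omega
      simp only [hL, zero_add, Finset.prod_range_one]
      linarith [norm_nonneg (E 0)]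
    | succ n ih =>
      have hs : L (n + 1) = L n * (1 + ‖E (n + 1)‖) := Finset.prod_range_succ _ _
      have h1 := hL1 n
      have h2 := norm_nonneg (E (n + 1))
      rcases Nat.lt_or_ge n m with h | h
      · obtain rfl : m = n + 1 := by omega
        rw [hs]; nlinarith
      · have := ih h
        rw [hs]; nlinarith
  -- the recursion
  set K : ℕ → ℝ := fun n => ∏ i ∈ Finset.range n, (1 + ‖R i‖) with hK
  have hKpos : ∀ n, 0 < K n := fun n => Finset.prod_pos (fun i _ => by positivity)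
  have hK1 : ∀ n, 1 ≤ K n := by
    intro n
    induction n with
    | zero => simp [hK]
    | succ n ih =>
      have : K (n + 1) = K n * (1 + ‖R n‖) := Finset.prod_range_succ _ _
      rw [this]
      nlinarith [norm_nonneg (R n)]
  set δ : ℕ → ℝ := fun k => (1 / 2) ^ k / (K (ν k) * L (ν k)) with hδdef
  have hδ : ∀ k, 0 < δ k := fun k => by
    rw [hδdef]; exact div_pos (by positivity) (mul_pos (hKpos _) (hLpos _))
  have hY : ∀ (k : ℕ) (p : B), ∃ y : B, ‖y‖ ≤ δ k ∧
      (k : ℝ) + ‖θ p‖ + 3 ≤ ‖(I (ν (k + 1))).mkQ ((opProd T 0 (ν k)) (θ y))‖ :=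
    fun k p => hdis k (δ k) (hδ k) _
  choose Y hY1 hY2 using hY
  let P : ℕ → B := fun k => Nat.rec 0 (fun k p => p + (opProd R 0 (ν k)) (Y k p)) k
  have hP : ∀ k, P (k + 1) = P k + (opProd R 0 (ν k)) (Y k (P k)) := fun k => rfl
  set y : ℕ → B := fun k => Y k (P k) with hydef
  have hRprod : ∀ m n : ℕ, ‖opProd R m n‖ ≤ K (m + n) := by
    intro m n
    induction n with
    | zero =>
      exact (ContinuousLinearMap.norm_id_le).trans (hK1 _)
    | succ n ih =>
      have h0 : K (m + (n + 1)) = K (m + n) * (1 + ‖R (m + n)‖) := Finset.prod_range_succ _ _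
      calc ‖opProd R m n * R (m + n)‖ ≤ ‖opProd R m n‖ * ‖R (m + n)‖ :=
            ContinuousLinearMap.opNorm_comp_le _ _
        _ ≤ K (m + n) * (1 + ‖R (m + n)‖) := by
            apply mul_le_mul ih _ (norm_nonneg _) (hKpos _).le
            linarith
        _ = K (m + (n + 1)) := h0.symm
  have hterm' : ∀ m k : ℕ, m ≤ ν k →
      ‖(opProd R m (ν k - m)) (y k)‖ * L (ν k) ≤ (1 / 2) ^ k := by
    intro m k hm
    have h0 : m + (ν k - m) = ν k := by omega
    have h1 : ‖(opProd R m (ν k - m)) (y k)‖ ≤ K (ν k) * δ k := by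
      calc ‖(opProd R m (ν k - m)) (y k)‖ ≤ ‖opProd R m (ν k - m)‖ * ‖y k‖ :=
            ContinuousLinearMap.le_opNorm _ _
        _ ≤ K (ν k) * δ k := by
            apply mul_le_mul _ (hY1 _ _) (norm_nonneg _) (hKpos _).le
            have := hRprod m (ν k - m)
            rwa [h0] at this
    calc ‖(opProd R m (ν k - m)) (y k)‖ * L (ν k) ≤ K (ν k) * δ k * L (ν k) :=
          mul_le_mul_of_nonneg_right h1 (hLpos _).le
      _ = (1 / 2) ^ k := by
          rw [hδdef]
          have h2 := (hKpos (ν k)).ne'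
          have h3 := (hLpos (ν k)).ne'
          field_simp
  have hterm : ∀ m k : ℕ, m ≤ ν k → ‖(opProd R m (ν k - m)) (y k)‖ ≤ (1 / 2) ^ k := by
    intro m k hm
    refine le_trans ?_ (hterm' m k hm)
    exact le_mul_of_one_le_right (norm_nonneg _) (hL1 _)
  have hgeo : Summable (fun k : ℕ => ((1 : ℝ) / 2) ^ k) :=
    summable_geometric_of_lt_one (by norm_num) (by norm_num)
  have hsum : Summable (fun k => (opProd R 0 (ν k)) (y k)) := by
    apply Summable.of_norm_bounded hgeo
    intro k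
    have := hterm 0 k (Nat.zero_le _)
    simpa using this
  have hPsum : ∀ k, P k = ∑ j ∈ Finset.range k, (opProd R 0 (ν j)) (y j) := by
    intro k
    induction k with
    | zero => rfl
    | succ k ih => rw [hP, Finset.sum_range_succ, ← ih]
  set z : B := ∑' k, (opProd R 0 (ν k)) (y k) with hz
  have hbig : ∀ k : ℕ, (k : ℝ) ≤ ‖θ z‖ := by
    intro k
    -- tail
    have hsumw : Summable (fun j => (opProd R (ν (k + 1)) (ν (j + (k + 1)) - ν (k + 1)))
        (y (j + (k + 1)))) := by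
      apply Summable.of_norm_bounded ((summable_nat_add_iff (k + 1)).2 hgeo)
      intro j
      exact hterm _ _ (hνmono.monotone (show k + 1 ≤ j + (k + 1) by omega))
    set w : B := ∑' j, (opProd R (ν (k + 1)) (ν (j + (k + 1)) - ν (k + 1)))
        (y (j + (k + 1))) with hw
    have hzw : z = P k + (opProd R 0 (ν k)) (y k) + (opProd R 0 (ν (k + 1))) w := by
      rw [hz, ← hsum.sum_add_tsum_nat_add (k + 1), ← hPsum (k + 1), hP]
      congr 1
      rw [hw, ContinuousLinearMap.map_tsum _ hsumw]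
      congr 1
      funext j
      rw [← ContinuousLinearMap.mul_apply]
      have h0 := opProd_add R 0 (ν (k + 1)) (ν (j + (k + 1)) - ν (k + 1))
      rw [zero_add] at h0
      rw [← h0]
      congr 2
      have : ν (k + 1) ≤ ν (j + (k + 1)) :=
        hνmono.monotone (show k + 1 ≤ j + (k + 1) by omega)
      omega
    have hθz : θ z = θ (P k) + ((opProd T 0 (ν k)) (θ (y k)) + E (ν k) (y k)) +
        ((opProd T 0 (ν (k + 1))) (θ w) + E (ν (k + 1)) w) := by
      rw [hzw, map_add, map_add, hθR, hθR]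
    have hE1 : ‖E (ν k) (y k)‖ ≤ 1 := by
      have h0 := hterm' (ν k) k le_rfl
      rw [Nat.sub_self] at h0
      have h0' : ‖y k‖ * L (ν k) ≤ (1 / 2) ^ k := h0
      calc ‖E (ν k) (y k)‖ ≤ ‖E (ν k)‖ * ‖y k‖ := ContinuousLinearMap.le_opNorm _ _
        _ ≤ L (ν k) * ‖y k‖ := mul_le_mul_of_nonneg_right (hLE _ _ le_rfl) (norm_nonneg _)
        _ ≤ (1 / 2) ^ k := by rw [mul_comm]; exact h0'
        _ ≤ 1 := pow_le_one₀ (by norm_num) (by norm_num)
    have hE2 : ‖E (ν (k + 1)) w‖ ≤ 2 := by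
      rw [hw, ContinuousLinearMap.map_tsum _ hsumw]
      have hgs : HasSum (fun j : ℕ => ((1 : ℝ) / 2) ^ j) 2 := by
        have := hasSum_geometric_of_lt_one (r := (1 : ℝ) / 2) (by norm_num) (by norm_num)
        norm_num at this ⊢
        exact this
      refine tsum_of_norm_bounded hgs (fun j => ?_)
      have hle1 : ν (k + 1) ≤ ν (j + (k + 1)) :=
        hνmono.monotone (show k + 1 ≤ j + (k + 1) by omega)
      have h0 := hterm' (ν (k + 1)) (j + (k + 1)) hle1
      calc ‖E (ν (k + 1)) ((opProd R (ν (k + 1)) (ν (j + (k + 1)) - ν (k + 1)))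
            (y (j + (k + 1))))‖
          ≤ ‖E (ν (k + 1))‖ * ‖(opProd R (ν (k + 1)) (ν (j + (k + 1)) - ν (k + 1)))
            (y (j + (k + 1)))‖ := ContinuousLinearMap.le_opNorm _ _
        _ ≤ L (ν (j + (k + 1))) * ‖(opProd R (ν (k + 1)) (ν (j + (k + 1)) - ν (k + 1)))
            (y (j + (k + 1)))‖ :=
            mul_le_mul_of_nonneg_right (hLE _ _ hle1) (norm_nonneg _)
        _ ≤ (1 / 2) ^ (j + (k + 1)) := by rw [mul_comm]; exact h0
        _ ≤ (1 / 2) ^ j := pow_le_pow_of_le_one (by norm_num) (by norm_num) (by omega)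
    set S := I (ν (k + 1)) with hS
    have hq : S.mkQ (θ z) = S.mkQ (θ (P k)) + S.mkQ ((opProd T 0 (ν k)) (θ (y k))) +
        S.mkQ (E (ν k) (y k)) + S.mkQ (E (ν (k + 1)) w) := by
      rw [hθz, map_add, map_add, map_add, map_add]
      have : S.mkQ ((opProd T 0 (ν (k + 1))) (θ w)) = 0 := by
        rw [Submodule.mkQ_apply, Submodule.Quotient.mk_eq_zero]
        exact hTn _ _
      rw [this]
      abel
    have hle : ∀ a : A, ‖S.mkQ a‖ ≤ ‖a‖ := fun a => Submodule.Quotient.norm_mk_le S a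
    have h1 := hY2 k (P k)
    have h2 : ‖S.mkQ ((opProd T 0 (ν k)) (θ (y k)))‖ ≤ ‖S.mkQ (θ z)‖ + ‖S.mkQ (θ (P k))‖ +
        ‖S.mkQ (E (ν k) (y k))‖ + ‖S.mkQ (E (ν (k + 1)) w)‖ := by
      have : S.mkQ ((opProd T 0 (ν k)) (θ (y k))) = S.mkQ (θ z) - S.mkQ (θ (P k)) -
          S.mkQ (E (ν k) (y k)) - S.mkQ (E (ν (k + 1)) w) := by
        rw [hq]; abel
      rw [this]
      refine (norm_sub_le _ _).trans (add_le_add ?_ le_rfl)
      refine (norm_sub_le _ _).trans (add_le_add ?_ le_rfl)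
      exact norm_sub_le _ _
    have h3 := hle (θ z)
    have h4 := hle (θ (P k))
    have h6 := hle (E (ν k) (y k))
    have h7 := hle (E (ν (k + 1)) w)
    have h5 : (k : ℝ) + ‖θ (P k)‖ + 3 ≤ ‖S.mkQ ((opProd T 0 (ν k)) (θ (y k)))‖ := h1
    linarith
  obtain ⟨k, hk⟩ := exists_nat_gt ‖θ z‖
  exact absurd (hbig k) (not_le.2 hk)

end GlidingErr

end Pool.Agent.Helper988.AC
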