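import Pool.Agent.Helper988.AC.Cofin
import Pool.Agent.Helper988.AC.Seq3

set_option autoImplicit false
open Filter Topology

namespace Pool.Agent.Helper988.AC

section Deriv

variable {A : Type} [NonUnitalNormedRing A] [NormedSpace ℂ A] [IsScalarTower ℂ A A]
  [SMulCommClass ℂ A A]

lemma dsep_left (D : A →ₗ[ℂ] A) (hD : ∀ x y, D (x * y) = D x * y + x * D y) (a s : A)
    (hs : s ∈ Sep D) : a * s ∈ Sep D := by
  obtain ⟨x, hx, hxs⟩ := Sep_seq D hs
  refine Sep_of_seq D (fun j => a * x j) ?_ ?_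
  · have := hx.const_mul a
    rwa [mul_zero] at this
  · have h1 : Tendsto (fun j => D a * x j + a * D (x j)) atTop (𝓝 (D a * 0 + a * s)) :=
      (hx.const_mul (D a)).add (hxs.const_mul a)
    rw [mul_zero, zero_add] at h1
    exact h1.congr (fun j => (hD _ _).symm)

lemma dsep_right (D : A →ₗ[ℂ] A) (hD : ∀ x y, D (x * y) = D x * y + x * D y) (s a : A)
    (hs : s ∈ Sep D) : s * a ∈ Sep D := by
  obtain ⟨x, hx, hxs⟩ := Sep_seq D hs
  refine Sep_of_seq D (fun j => x j * a) ?_ ?_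
  · have := hx.mul_const a
    rwa [zero_mul] at this
  · have h1 : Tendsto (fun j => D (x j) * a + x j * D a) atTop (𝓝 (s * a + 0 * D a)) :=
      (hxs.mul_const a).add (hx.mul_const (D a))
    rw [zero_mul, add_zero] at h1
    exact h1.congr (fun j => (hD _ _).symm)

lemma dext_step (hsp : ∀ a : A, (∀ x, a * x * a = 0) → a = 0)
    (D : A →ₗ[ℂ] A) (hD : ∀ x y, D (x * y) = D x * y + x * D y) (J : Submodule ℂ A)
    (hcl : IsClosed (J : Set A)) (hfin : FiniteDimensional ℂ (A ⧸ J))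
    (hl : ∀ a x, x ∈ J → a * x ∈ J) (hr : ∀ a x, x ∈ J → x * a ∈ J)
    (p q : A) (s₀ : A) (hs₀ : s₀ ∈ Sep D) (hne : p * s₀ * q ≠ 0) :
    ∃ b : A × A, b.1 ∈ J ∧ b.2 ∈ J ∧ ∃ s ∈ Sep D, p * (b.1 * s * b.2) * q ≠ 0 := by
  by_contra hcon
  push Not at hcon
  apply hne
  set y := p * s₀ * q with hy
  have hyS : y ∈ Sep D := dsep_right D hD _ _ (dsep_left D hD _ _ hs₀)
  have h1 : ∀ a ∈ J, ∀ c ∈ J, y * a * y * c * y = 0 := by
    intro a ha c hc
    have h2 := hcon (s₀ * q * a * p, q * c * p * s₀)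
      (hr _ _ (hl _ _ ha)) (hr _ _ (hr _ _ (hl _ _ hc))) s₀ hs₀
    calc y * a * y * c * y = p * (s₀ * q * a * p * s₀ * (q * c * p * s₀)) * q := by
          rw [hy]; simp only [mul_assoc]
      _ = 0 := h2
  have h2 : ∀ a ∈ J, y * a = 0 := by
    intro a ha
    apply semiprime3 hsp
    intro x x'
    calc y * a * x * (y * a) * x' * (y * a) = (y * (a * x) * y * (a * x') * y) * a := by
          simp only [mul_assoc]
      _ = 0 := by rw [h1 _ (hr _ _ ha) _ (hr _ _ ha), zero_mul]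
  have : IsClosed (J : Set A) := hcl
  let g : A →ₗ[ℂ] A := D.comp (LinearMap.mulLeft ℂ y)
  have hg : ∀ a ∈ J, g a = 0 := by
    intro a ha
    show D (y * a) = 0
    rw [h2 a ha, map_zero]
  have hgc : Continuous g := by
    have h3 : Continuous (J.liftQ g (fun a ha => hg a ha)) :=
      LinearMap.continuous_of_finiteDimensional _
    have h4 : (g : A → A) = (J.liftQ g (fun a ha => hg a ha)) ∘ J.mkQ := by
      funext a; rfl
    rw [h4]
    exact h3.comp (Submodule.continuous_mkQ J)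
  have h5 : ∀ s ∈ Sep D, y * s = 0 := by
    intro s hs
    obtain ⟨x, hx, hxs⟩ := Sep_seq D hs
    have h6 : Tendsto (fun j => y * D (x j)) atTop (𝓝 (y * s)) := hxs.const_mul y
    have h7 : Tendsto (fun j => g (x j) - D y * x j) atTop (𝓝 (g 0 - D y * 0)) :=
      ((hgc.tendsto 0).comp hx).sub (hx.const_mul (D y))
    rw [map_zero, mul_zero, sub_zero] at h7
    have h8 : (fun j => g (x j) - D y * x j) = fun j => y * D (x j) := by
      funext j
      show D (y * x j) - D y * x j = _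
      rw [hD]; abel
    rw [h8] at h7
    exact tendsto_nhds_unique h6 h7
  apply hsp
  intro x
  rw [mul_assoc]
  exact h5 _ (dsep_left D hD _ _ hyS)

lemma dext_multi (hsp : ∀ a : A, (∀ x, a * x * a = 0) → a = 0)
    (D : A →ₗ[ℂ] A) (hD : ∀ x y, D (x * y) = D x * y + x * D y) (K : Submodule ℂ A)
    (hcl : IsClosed (K : Set A)) (hfin : FiniteDimensional ℂ (A ⧸ K))
    (hl : ∀ a x, x ∈ K → a * x ∈ K) (hr : ∀ a x, x ∈ K → x * a ∈ K) (n : ℕ) :
    ∀ (p q : A) (s₀ : A), s₀ ∈ Sep D → p * s₀ * q ≠ 0 →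
    ∃ b : A × A, b.1 ∈ PowProd K n ∧ ∃ s ∈ Sep D, p * (b.1 * s * b.2) * q ≠ 0 := by
  induction n with
  | zero =>
    intro p q s₀ hs₀ hne
    obtain ⟨b, hb1, _, hb3⟩ := dext_step hsp D hD K hcl hfin hl hr p q s₀ hs₀ hne
    exact ⟨b, hb1, hb3⟩
  | succ n ih =>
    intro p q s₀ hs₀ hne
    obtain ⟨b, hb1, _, s, hs, hb3⟩ := dext_step hsp D hD K hcl hfin hl hr p q s₀ hs₀ hne
    have h1 : p * b.1 * s * (b.2 * q) ≠ 0 := by
      intro h0
      apply hb3
      rw [← h0]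
      simp only [mul_assoc]
    obtain ⟨c, hc1, s', hs', hc2⟩ := ih _ _ s hs h1
    refine ⟨(b.1 * c.1, c.2 * b.2), ⟨_, hb1, _, hc1, rfl⟩, s', hs', ?_⟩
    intro h0
    apply hc2
    rw [← h0]
    simp only [mul_assoc]

/-- derivations on semiprime Banach algebras in which the closed powers of the closed cofinite
ideals have zero intersection -/
theorem deriv_cont [CompleteSpace A]
    (hsp : ∀ a : A, (∀ x, a * x * a = 0) → a = 0)
    (hK : ∀ y : A, y ≠ 0 → ∃ (K J : Submodule ℂ A) (n : ℕ), IsClosed (K : Set A) ∧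
      (∀ a x, x ∈ K → a * x ∈ K) ∧ (∀ a x, x ∈ K → x * a ∈ K) ∧
      IsClosed (J : Set A) ∧ FiniteDimensional ℂ (A ⧸ J) ∧
      (∀ a x, x ∈ J → a * x ∈ J) ∧ (∀ a x, x ∈ J → x * a ∈ J) ∧
      (∀ x ∈ PowProd J n, x ∈ K) ∧ y ∉ K)
    (D : A →ₗ[ℂ] A) (hD : ∀ x y, D (x * y) = D x * y + x * D y) : Continuous D := by
  have hS : ∀ s ∈ Sep D, s = 0 := by
    by_contra hcon
    push Not at hcon
    obtain ⟨s₁, hs₁, hs₁0⟩ := hcon
    have hstart : ∃ b₀ b₀' : A, ∃ s ∈ Sep D, b₀ * s * b₀' ≠ 0 := by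
      by_contra hcon
      push Not at hcon
      apply hs₁0
      apply semiprime3 hsp
      intro x x'
      calc s₁ * x * s₁ * x' * s₁ = (s₁ * x) * s₁ * (x' * s₁) := by simp only [mul_assoc]
        _ = 0 := hcon _ _ s₁ hs₁
    obtain ⟨b₀, b₀', hb₀⟩ := hstart
    let G : Type := {c : A × A // ∃ s ∈ Sep D, c.1 * s * c.2 ≠ 0}
    have hf : ∀ c : G, ∃ (b : A × A) (K : Submodule ℂ A), IsClosed (K : Set A) ∧
        (∀ a x, x ∈ K → a * x ∈ K) ∧ (∀ a x, x ∈ K → x * a ∈ K) ∧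
        b.1 ∈ K ∧ (∃ s ∈ Sep D, c.1.1 * s * c.1.2 ∉ K) ∧
        ∃ s ∈ Sep D, c.1.1 * (b.1 * s * b.2) * c.1.2 ≠ 0 := by
      intro c
      obtain ⟨s, hs, hne⟩ := c.2
      obtain ⟨K, J, n, hK1, hK2, hK3, hJ1, hJ2, hJ3, hJ4, hJK, hyK⟩ := hK _ hne
      obtain ⟨b, hb1, hb3⟩ := dext_multi hsp D hD J hJ1 hJ2 hJ3 hJ4 n _ _ s hs hne
      exact ⟨b, K, hK1, hK2, hK3, hJK _ hb1, ⟨s, hs, hyK⟩, hb3⟩
    choose f Kf hf1 hf2 hf3 hf4 hf5 hf6 using hf
    have hnext : ∀ c : G, ∃ s ∈ Sep D,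
        (c.1.1 * (f c).1) * s * ((f c).2 * c.1.2) ≠ 0 := by
      intro c
      obtain ⟨s, hs, h⟩ := hf6 c
      refine ⟨s, hs, ?_⟩
      intro h0
      apply h
      calc c.1.1 * ((f c).1 * s * (f c).2) * c.1.2
          = c.1.1 * (f c).1 * s * ((f c).2 * c.1.2) := by
            simp only [mul_assoc]
        _ = 0 := h0
    let cs : ℕ → G := fun n => Nat.rec (⟨(b₀, b₀'), hb₀⟩ : G)
      (fun _ c => ⟨(c.1.1 * (f c).1, (f c).2 * c.1.2), hnext c⟩) n
    have hcs1 : ∀ n, (cs (n + 1)).1.1 = (cs n).1.1 * (f (cs n)).1 := fun n => rfl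
    have hcs2 : ∀ n, (cs (n + 1)).1.2 = (f (cs n)).2 * (cs n).1.2 := fun n => rfl
    let bs : ℕ → A × A := fun n => Nat.casesOn n (b₀, b₀') (fun n => f (cs n))
    have hbs : ∀ n, bs (n + 1) = f (cs n) := fun n => rfl
    let T : ℕ → (A →L[ℂ] A) := fun i =>
      ((ContinuousLinearMap.mul ℂ A).flip (bs i).2).comp (ContinuousLinearMap.mul ℂ A (bs i).1)
    let e : ℕ → (A →L[ℂ] A) := fun i =>
      ((ContinuousLinearMap.mul ℂ A).flip (bs i).2).comp
          (ContinuousLinearMap.mul ℂ A (D (bs i).1)) +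
        ((ContinuousLinearMap.mul ℂ A).flip (D (bs i).2)).comp
          (ContinuousLinearMap.mul ℂ A (bs i).1)
    have hT : ∀ i a, T i a = (bs i).1 * a * (bs i).2 := fun i a => rfl
    have he : ∀ i a, e i a = D (bs i).1 * a * (bs i).2 + (bs i).1 * a * D (bs i).2 :=
      fun i a => rfl
    have hTc : ∀ n a, (opProd T 0 (n + 1)) a = (cs n).1.1 * a * (cs n).1.2 := by
      intro n
      induction n with
      | zero => intro a; rfl
      | succ n ih =>
        intro a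
        show (opProd T 0 (n + 1)) (T (0 + (n + 1)) a) = _
        rw [ih, hcs1, hcs2, hT, zero_add, hbs]
        simp only [mul_assoc]
    refine gliding_err D T T e (fun i x => ?_)
      (fun n => (LinearMap.range ((opProd T 0 n : A →L[ℂ] A) : A →ₗ[ℂ] A)).topologicalClosure)
      (fun n => Submodule.isClosed_topologicalClosure _)
      (fun n a => Submodule.le_topologicalClosure _ ⟨a, rfl⟩)
      (fun k => k + 1) (fun a b h => Nat.succ_lt_succ h) (fun k => ?_)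
    · rw [hT, hT, he, hD, hD, add_mul]
      abel
    obtain ⟨s, hs, hsK⟩ := hf5 (cs k)
    refine ⟨s, hs, ?_⟩
    rw [hTc]
    intro hmem
    apply hsK
    have hmem' : (cs k).1.1 * s * (cs k).1.2 ∈
        closure ((LinearMap.range ((opProd T 0 (k + 1 + 1) : A →L[ℂ] A) : A →ₗ[ℂ] A) :
          Submodule ℂ A) : Set A) := hmem
    refine closure_minimal ?_ (hf1 (cs k)) hmem'
    rintro v ⟨y, rfl⟩
    show (opProd T 0 (k + 1)) (T (0 + (k + 1)) y) ∈ Kf (cs k)
    rw [hTc, hT, zero_add, hbs]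
    apply hf3
    apply hf2
    apply hf3
    apply hf3
    exact hf4 (cs k)
  apply LinearMap.continuous_of_seq_closed_graph
  intro u x0 y0 hu hy
  have hx : Tendsto (fun j => u j - x0) atTop (𝓝 0) := by
    have := hu.sub_const x0
    rwa [sub_self] at this
  have hs : Tendsto (fun j => D (u j - x0)) atTop (𝓝 (y0 - D x0)) := by
    have := hy.sub_const (D x0)
    refine this.congr (fun j => ?_)
    simp [map_sub]
  exact sub_eq_zero.1 (hS _ (Sep_of_seq D _ hx hs))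

end Deriv

end Pool.Agent.Helper988.AC
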