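import Pool.Agent.Helper988.AC.Seq

set_option autoImplicit false
open Filter Topology

namespace Pool.Agent.Helper988.AC

section Johnson

variable {A B : Type} [NormedRing A] [NormedAlgebra ℂ A] [CompleteSpace A]
  [NormedRing B] [NormedAlgebra ℂ B] [CompleteSpace B]

omit [CompleteSpace A] in
lemma sr_le (θ : B →ₐ[ℂ] A) (y : B) : spectralRadius ℂ (θ y) ≤ ‖y‖₊ := by
  refine iSup₂_le (fun μ hμ => ?_)
  by_contra hc
  push Not at hc
  have hlt' : ‖y‖₊ < ‖μ‖₊ := by exact_mod_cast hc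
  have hlt : ‖y‖ < ‖μ‖ := hlt'
  have hμ0 : μ ≠ 0 := by
    rintro rfl
    rw [norm_zero] at hlt
    exact absurd hlt (not_lt.2 (norm_nonneg _))
  have h1 : ‖μ⁻¹ • y‖ < 1 := by
    rw [norm_smul, norm_inv, inv_mul_lt_one₀ (norm_pos_iff.2 hμ0)]; exact hlt
  have h2 : IsUnit (1 - μ⁻¹ • y) := isUnit_one_sub_of_norm_lt_one h1
  have h3 : IsUnit (algebraMap ℂ B μ - y) := by
    have : algebraMap ℂ B μ - y = (algebraMap ℂ B μ) * (1 - μ⁻¹ • y) := by
      rw [mul_sub, mul_one, ← Algebra.smul_def, smul_smul, mul_inv_cancel₀ hμ0, one_smul]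
    rw [this]
    exact ((IsUnit.mk0 μ hμ0).map (algebraMap ℂ B)).mul h2
  have h4 := h3.map θ
  rw [map_sub, AlgHom.commutes] at h4
  exact hμ h4

lemma ev_pow (a : A) (β : ℝ) (hβ : spectralRadius ℂ a < ENNReal.ofReal β) :
    ∃ N : ℕ, ∀ n : ℕ, N ≤ n → ‖a ^ n‖ < β ^ n := by
  have h := spectrum.pow_norm_pow_one_div_tendsto_nhds_spectralRadius a
  obtain ⟨N, hN⟩ := eventually_atTop.1 (h.eventually_lt_const hβ)
  refine ⟨max N 1, fun n hn => ?_⟩
  have h3 := hN n (le_trans (le_max_left _ _) hn)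
  have hn1 : 1 ≤ n := le_trans (le_max_right _ _) hn
  have h4 : ‖a ^ n‖ ^ (1 / n : ℝ) < β :=
    (ENNReal.ofReal_lt_ofReal_iff_of_nonneg (by positivity)).1 h3
  have h5 : (‖a ^ n‖ ^ (1 / n : ℝ)) ^ n < β ^ n :=
    pow_lt_pow_left₀ h4 (by positivity) (by omega)
  have h6 : (‖a ^ n‖ ^ (1 / n : ℝ)) ^ n = ‖a ^ n‖ := by
    rw [← Real.rpow_natCast, ← Real.rpow_mul (norm_nonneg _)]
    have : (n : ℝ) ≠ 0 := by positivity
    rw [one_div, inv_mul_cancel₀ this, Real.rpow_one]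
  rwa [h6] at h5

omit [NormedAlgebra ℂ A] [CompleteSpace A] in
lemma unif_pow (p : ℂ → A) (hp : Continuous p) (K : Set ℂ) (hK : IsCompact K) (β : ℝ)
    (hβ : 0 < β)
    (h : ∀ z ∈ K, ∃ N : ℕ, ∀ n : ℕ, N ≤ n → ‖p z ^ n‖ < β ^ n) :
    ∃ j : ℕ, ∀ z ∈ K, ‖p z ^ (2 ^ j)‖ < β ^ (2 ^ j) := by
  let U : ℕ → Set ℂ := fun j => {z | ‖p z ^ (2 ^ j)‖ < β ^ (2 ^ j)}
  have hUo : ∀ j, IsOpen (U j) := fun j => isOpen_lt (hp.pow _).norm continuous_const
  have hmono : Monotone U := by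
    apply monotone_nat_of_le_succ
    intro j z hz
    have hz' : ‖p z ^ (2 ^ j)‖ < β ^ (2 ^ j) := hz
    show ‖p z ^ (2 ^ (j + 1))‖ < β ^ (2 ^ (j + 1))
    rw [pow_succ 2 j, pow_mul, pow_mul, pow_two, pow_two]
    calc ‖p z ^ 2 ^ j * p z ^ 2 ^ j‖ ≤ ‖p z ^ 2 ^ j‖ * ‖p z ^ 2 ^ j‖ := norm_mul_le _ _
      _ < β ^ 2 ^ j * β ^ 2 ^ j :=
          mul_lt_mul'' hz' hz' (norm_nonneg _) (norm_nonneg _)
  have hcov : K ⊆ ⋃ j, U j := by
    intro z hz
    obtain ⟨N, hN⟩ := h z hz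
    exact Set.mem_iUnion.2 ⟨N, hN _ (Nat.lt_two_pow_self).le⟩
  obtain ⟨j, hj⟩ := hK.elim_directed_cover U hUo hcov hmono.directed_le
  exact ⟨j, fun z hz => hj hz⟩

omit [CompleteSpace A] in
lemma three_circles (p : ℂ → A) (hp : Differentiable ℂ p) (k : ℕ) (R : ℝ) (hR : 1 < R)
    (M₁ M₂ : ℝ) (h1 : ∀ z, ‖z‖ = R → ‖p z ^ k‖ ≤ M₁) (h2 : ∀ z, ‖z‖ = R⁻¹ → ‖p z ^ k‖ ≤ M₂) :
    ‖p 1 ^ (2 * k)‖ ≤ M₁ * M₂ := by
  have hR0 : 0 < R := by linarith
  have hRi : R⁻¹ < 1 := inv_lt_one_of_one_lt₀ hR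
  have hRi0 : 0 < R⁻¹ := inv_pos.2 hR0
  let U : Set ℂ := {z | R⁻¹ < ‖z‖ ∧ ‖z‖ < R}
  let h : ℂ → A := fun z => p z ^ k * p z⁻¹ ^ k
  have hUo : IsOpen U :=
    (isOpen_lt continuous_const continuous_norm).inter (isOpen_lt continuous_norm continuous_const)
  have hcl : closure U ⊆ {z : ℂ | R⁻¹ ≤ ‖z‖ ∧ ‖z‖ ≤ R} := by
    apply closure_minimal
    · intro z hz; exact ⟨hz.1.le, hz.2.le⟩
    · exact (isClosed_le continuous_const continuous_norm).inter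
        (isClosed_le continuous_norm continuous_const)
  have hbd : Bornology.IsBounded U := by
    apply (Metric.isBounded_closedBall (x := (0 : ℂ)) (r := R)).subset
    intro z hz
    rw [Metric.mem_closedBall, dist_zero_right]
    exact hz.2.le
  have hdiff : DiffContOnCl ℂ h U := by
    apply DifferentiableOn.diffContOnCl
    intro z hz
    have hz0 : z ≠ 0 := by
      rintro rfl
      have := (hcl hz).1
      rw [norm_zero] at this
      linarith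
    apply DifferentiableAt.differentiableWithinAt
    apply DifferentiableAt.mul
    · exact (hp z).pow k
    · exact ((hp z⁻¹).comp z (differentiableAt_inv hz0)).pow k
  have hM1 : 0 ≤ M₁ := (norm_nonneg _).trans (h1 (R : ℂ) (by
    rw [Complex.norm_real, Real.norm_eq_abs, abs_of_pos hR0]))
  have hM2 : 0 ≤ M₂ := (norm_nonneg _).trans (h2 ((R⁻¹ : ℝ) : ℂ) (by
    rw [Complex.norm_real, Real.norm_eq_abs, abs_of_pos hRi0]))
  have hfr : ∀ z ∈ frontier U, ‖h z‖ ≤ M₁ * M₂ := by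
    intro z hz
    rw [hUo.frontier_eq] at hz
    obtain ⟨hz1, hz2⟩ := hz
    obtain ⟨h3, h4⟩ := hcl hz1
    have h5 : ‖z‖ = R⁻¹ ∨ ‖z‖ = R := by
      by_contra hcon
      push Not at hcon
      exact hz2 ⟨lt_of_le_of_ne h3 (Ne.symm hcon.1), lt_of_le_of_ne h4 hcon.2⟩
    rcases h5 with h5 | h5
    · calc ‖p z ^ k * p z⁻¹ ^ k‖ ≤ ‖p z ^ k‖ * ‖p z⁻¹ ^ k‖ := norm_mul_le _ _
        _ ≤ M₂ * M₁ := mul_le_mul (h2 z h5) (h1 z⁻¹ (by rw [norm_inv, h5, inv_inv]))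
            (norm_nonneg _) hM2
        _ = M₁ * M₂ := mul_comm _ _
    · calc ‖p z ^ k * p z⁻¹ ^ k‖ ≤ ‖p z ^ k‖ * ‖p z⁻¹ ^ k‖ := norm_mul_le _ _
        _ ≤ M₁ * M₂ := mul_le_mul (h1 z h5) (h2 z⁻¹ (by rw [norm_inv, h5]))
            (norm_nonneg _) hM1
  have h1U : (1 : ℂ) ∈ closure U := subset_closure (by
    show R⁻¹ < ‖(1 : ℂ)‖ ∧ ‖(1 : ℂ)‖ < R
    rw [norm_one]; exact ⟨hRi, hR⟩)
  have := Complex.norm_le_of_forall_mem_frontier_norm_le hbd hdiff hfr h1U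
  have h6 : h 1 = p 1 ^ (2 * k) := by
    show p 1 ^ k * p (1 : ℂ)⁻¹ ^ k = _
    rw [inv_one, ← pow_add, two_mul]
  rwa [h6] at this

/-- Ransford's argument: elements of the separating space in the range are quasinilpotent -/
lemma sep_small (θ : B →ₐ[ℂ] A) (b : B) (hs : θ b ∈ Sep θ.toLinearMap) (ε : ℝ) (hε : 0 < ε) :
    ∃ n : ℕ, 1 ≤ n ∧ ‖θ b ^ n‖ ≤ ε ^ n := by
  set s := θ b with hsdef
  set β : ℝ := ‖b‖ + 1 with hβ
  have hβ0 : 0 < β := by positivity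
  set τ : ℝ := ε ^ 2 / (2 * β) with hτ
  have hτ0 : 0 < τ := by positivity
  set R : ℝ := 1 + (‖s‖ + 1) / τ with hR
  have hR1 : 1 < R := by
    have : 0 < (‖s‖ + 1) / τ := by positivity
    rw [hR]; linarith
  have hR0 : 0 < R := by linarith
  set η : ℝ := min (1 / (R + 2)) (min τ 1) with hη
  have hη0 : 0 < η := lt_min (by positivity) (lt_min hτ0 one_pos)
  have hη1 : η ≤ 1 / (R + 2) := min_le_left _ _
  have hη2 : η ≤ τ := (min_le_right _ _).trans (min_le_left _ _)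
  have hη3 : η ≤ 1 := (min_le_right _ _).trans (min_le_right _ _)
  obtain ⟨x, hx1, hx2⟩ := hs η hη0
  have hx2' : ‖θ x - s‖ < η := hx2
  let p : ℂ → A := fun z => z • θ x + (s - θ x)
  have hpd : Differentiable ℂ p := by
    intro z
    exact ((differentiableAt_id).smul_const (θ x)).add_const _
  have hp1 : p 1 = s := by
    show (1 : ℂ) • θ x + (s - θ x) = s
    rw [one_smul]; abel
  have hpθ : ∀ z, p z = θ (z • x + (b - x)) := by
    intro z
    show z • θ x + (s - θ x) = _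
    rw [map_add, map_smul, map_sub]
  -- large circle
  have hlarge : ∀ z : ℂ, ‖z‖ = R → ‖z • x + (b - x)‖ < β := by
    intro z hz
    have h1 : η * (R + 2) ≤ 1 := by
      rw [le_div_iff₀ (by positivity)] at hη1; exact hη1
    calc ‖z • x + (b - x)‖ ≤ ‖z • x‖ + ‖b - x‖ := norm_add_le _ _
      _ ≤ R * ‖x‖ + (‖b‖ + ‖x‖) := by
          rw [norm_smul, hz]
          exact add_le_add le_rfl (norm_sub_le _ _)
      _ < β := by rw [hβ]; nlinarith [norm_nonneg x]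
  obtain ⟨j, hj⟩ := unif_pow p hpd.continuous (Metric.sphere (0 : ℂ) R) (isCompact_sphere _ _) β hβ0
    (by
      intro z hz
      have hz' : ‖z‖ = R := by simpa using hz
      apply ev_pow
      rw [hpθ]
      calc spectralRadius ℂ (θ (z • x + (b - x))) ≤ ‖z • x + (b - x)‖₊ := sr_le θ _
        _ = ENNReal.ofReal ‖z • x + (b - x)‖ := (ofReal_norm_eq_enorm _).symm
        _ < ENNReal.ofReal β := (ENNReal.ofReal_lt_ofReal_iff hβ0).2 (hlarge z hz'))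
  have hsmall : ∀ z : ℂ, ‖z‖ = R⁻¹ → ‖p z‖ ≤ 2 * τ := by
    intro z hz
    have h1 : (‖s‖ + 1) ≤ τ * R := by
      rw [hR, mul_add, mul_div_cancel₀ _ hτ0.ne']
      nlinarith
    have h2 : ‖θ x‖ ≤ ‖s‖ + 1 := by
      calc ‖θ x‖ = ‖s + (θ x - s)‖ := by congr 1; abel
        _ ≤ ‖s‖ + ‖θ x - s‖ := norm_add_le _ _
        _ ≤ ‖s‖ + 1 := by linarith
    calc ‖z • θ x + (s - θ x)‖ ≤ ‖z • θ x‖ + ‖s - θ x‖ := norm_add_le _ _
      _ ≤ τ + τ := by
          apply add_le_add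
          · rw [norm_smul, hz, inv_mul_le_iff₀ hR0]
            linarith
          · rw [norm_sub_rev]; linarith
      _ = 2 * τ := by ring
  have hmain := three_circles p hpd (2 ^ j) R hR1 (β ^ (2 ^ j)) ((2 * τ) ^ (2 ^ j))
    (fun z hz => (hj z (by simpa using hz)).le)
    (fun z hz => (norm_pow_le' (p z) (by positivity)).trans
      (pow_le_pow_left₀ (norm_nonneg _) (hsmall z hz) _))
  rw [hp1, ← mul_pow] at hmain
  have h7 : β * (2 * τ) = ε ^ 2 := by rw [hτ]; field_simp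
  rw [h7, ← pow_mul] at hmain
  exact ⟨2 * 2 ^ j, by have := Nat.one_le_two_pow (n := j); omega, hmain⟩

lemma sr_zero (s : A) (h : ∀ ε : ℝ, 0 < ε → ∃ n : ℕ, 1 ≤ n ∧ ‖s ^ n‖ ≤ ε ^ n) :
    spectralRadius ℂ s = 0 := by
  have key : ∀ ε : ℝ, 0 < ε → spectralRadius ℂ s ≤ ENNReal.ofReal ε := by
    intro ε hε
    obtain ⟨n, hn, hsn⟩ := h ε hε
    have h1 := spectrum.pow_norm_pow_one_div_tendsto_nhds_spectralRadius s
    have h2 : Tendsto (fun m : ℕ => n * (m + 1)) atTop atTop := by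
      apply tendsto_atTop_mono (fun m => ?_) tendsto_id
      simp only [id]
      nlinarith
    refine le_of_tendsto' (h1.comp h2) (fun m => ?_)
    apply ENNReal.ofReal_le_ofReal
    have h3 : ‖s ^ (n * (m + 1))‖ ≤ ε ^ (n * (m + 1)) := by
      rw [pow_mul, pow_mul]
      exact (norm_pow_le' _ (Nat.succ_pos m)).trans (pow_le_pow_left₀ (norm_nonneg _) hsn _)
    have hN : 0 < n * (m + 1) := Nat.mul_pos hn (Nat.succ_pos m)
    have hN' : ((n * (m + 1) : ℕ) : ℝ) ≠ 0 := by positivity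
    calc ‖s ^ (n * (m + 1))‖ ^ (1 / ((n * (m + 1) : ℕ) : ℝ))
        ≤ (ε ^ (n * (m + 1))) ^ (1 / ((n * (m + 1) : ℕ) : ℝ)) :=
          Real.rpow_le_rpow (norm_nonneg _) h3 (by positivity)
      _ = ε := by
          rw [← Real.rpow_natCast, ← Real.rpow_mul hε.le, mul_one_div_cancel hN', Real.rpow_one]
  apply le_antisymm _ zero_le
  apply ENNReal.le_of_forall_pos_le_add
  intro ε hε _
  rw [zero_add]
  have := key ε (by exact_mod_cast hε)
  rwa [ENNReal.ofReal_coe_nnreal] at this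

end Johnson

end Pool.Agent.Helper988.AC
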