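import Pool.Agent.Helper988.AC.Dense3
import Pool.Agent.Helper988.AC.Johnson

set_option autoImplicit false
open Filter Topology

namespace Pool.Agent.Helper988.AC

section Epi

variable {A : Type} [NonUnitalNormedRing A] [NormedSpace ℂ A] [IsScalarTower ℂ A A]
  [SMulCommClass ℂ A A] [CompleteSpace A]
  {B : Type} [NonUnitalNormedRing B] [NormedSpace ℂ B] [IsScalarTower ℂ B B]
  [SMulCommClass ℂ B B] [CompleteSpace B]

/-- the extension of a homomorphism to the unitizations -/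
noncomputable def uext (θ : B →ₙₐ[ℂ] A) :
    WithLp 1 (Unitization ℂ B) →ₐ[ℂ] WithLp 1 (Unitization ℂ A) :=
  ((WithLp.unitizationAlgEquiv (𝕜 := ℂ) (A := A) ℂ).symm.toAlgHom).comp
    ((Unitization.lift ((Unitization.inrNonUnitalAlgHom ℂ A).comp θ)).comp
      (WithLp.unitizationAlgEquiv (𝕜 := ℂ) (A := B) ℂ).toAlgHom)

omit [CompleteSpace A] [CompleteSpace B] in
lemma uext_inr (θ : B →ₙₐ[ℂ] A) (x : B) :
    uext θ (WithLp.toLp 1 (x : Unitization ℂ B)) = WithLp.toLp 1 ((θ x : A) : Unitization ℂ A) := by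
  simp only [uext]
  simp
  rfl

omit [CompleteSpace A] in
lemma inr_pow (a : A) (m : ℕ) :
    (WithLp.toLp 1 (a : Unitization ℂ A)) ^ (m + 1) = WithLp.toLp 1 ((pw a m : A) : Unitization ℂ A) := by
  induction m with
  | zero => rw [zero_add, pow_one]; rfl
  | succ m ih =>
    rw [pow_succ', ih]
    show _ = WithLp.toLp 1 ((a * pw a m : A) : Unitization ℂ A)
    rw [Unitization.inr_mul]
    rfl

lemma sep_small' (θ : B →ₙₐ[ℂ] A) (θl : B →ₗ[ℂ] A) (hl : ∀ x, θl x = θ x) (b : B)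
    (hs : θl b ∈ Sep θl) (ε : ℝ) (hε : 0 < ε) : ∃ n : ℕ, ‖pw (θl b) n‖ ≤ ε ^ (n + 1) := by
  have hs' : uext θ (WithLp.toLp 1 (b : Unitization ℂ B)) ∈ Sep (uext θ).toLinearMap := by
    intro η hη
    obtain ⟨x, hx1, hx2⟩ := hs η hη
    refine ⟨WithLp.toLp 1 (x : Unitization ℂ B), by rwa [WithLp.unitization_norm_inr], ?_⟩
    show ‖uext θ (WithLp.toLp 1 (x : Unitization ℂ B)) -
      uext θ (WithLp.toLp 1 (b : Unitization ℂ B))‖ < η
    rw [uext_inr, uext_inr]
    have h1 : WithLp.toLp 1 ((θ x : A) : Unitization ℂ A) - WithLp.toLp 1 ((θ b : A) :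
        Unitization ℂ A) = WithLp.toLp 1 ((θ x - θ b : A) : Unitization ℂ A) := by
      rw [Unitization.inr_sub]; rfl
    rw [h1, WithLp.unitization_norm_inr, ← hl, ← hl]
    exact hx2
  obtain ⟨n, hn, h⟩ := sep_small (uext θ) _ hs' ε hε
  obtain ⟨m, rfl⟩ : ∃ m, n = m + 1 := ⟨n - 1, by omega⟩
  refine ⟨m, ?_⟩
  rw [uext_inr, inr_pow, WithLp.unitization_norm_inr, ← hl] at h
  exact h

/-- epimorphisms onto semiprime algebras with sequentially non-divisible radical -/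
theorem epi_cont (hsp : ∀ a : A, (∀ x, a * x * a = 0) → a = 0)
    (hnd : ∀ a c : ℕ → A,
      (∀ n y, ∀ ε : ℝ, 0 < ε → ∃ k : ℕ, ‖pw (y * a n) k‖ ≤ ε ^ (k + 1)) →
      (∀ n y, ∀ ε : ℝ, 0 < ε → ∃ k : ℕ, ‖pw (y * c n) k‖ ≤ ε ^ (k + 1)) → ∀ x : A,
      (∀ n, x ∈ closure (Set.range (fun y => biprod a c n y))) → x = 0)
    (θ : B →ₙₐ[ℂ] A) (hs : Function.Surjective θ) : Continuous θ := by
  let θl : B →ₗ[ℂ] A :=
    { toFun := θ, map_add' := map_add θ, map_smul' := fun c x => map_smul θ c x }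
  have hθ : ∀ x y, θl (x * y) = θl x * θl y := fun x y => map_mul θ x y
  have hd : DenseRange θl := hs.denseRange
  have hrad : ∀ s ∈ Sep θl, ∀ y, ∀ ε : ℝ, 0 < ε → ∃ k : ℕ, ‖pw (y * s) k‖ ≤ ε ^ (k + 1) := by
    intro s hs' y ε hε
    obtain ⟨b, hb⟩ := hs (y * s)
    have hb' : θl b = y * s := hb
    have h1 : θl b ∈ Sep θl := by rw [hb']; exact Sep_mul_left θl hθ hd _ _ hs'
    have := sep_small' θ θl (fun _ => rfl) b h1 ε hε
    rwa [hb'] at this
  have : Continuous θl := by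
    refine dense_cont3 hsp θl (fun b => θl b ∈ Sep θl) ?_ ?_ ?_ hθ hd ?_
    · intro a c h
      show θl (a * c) ∈ Sep θl
      rw [hθ]; exact Sep_mul_right θl hθ hd _ _ h
    · intro a c h
      show θl (a * c) ∈ Sep θl
      rw [hθ]; exact Sep_mul_left θl hθ hd _ _ h
    · intro a c ha hc x hx
      exact hnd (fun n => θl (a n)) (fun n => θl (c n)) (fun n => hrad _ (ha n))
        (fun n => hrad _ (hc n)) x hx
    · intro s hs'
      obtain ⟨b, hb⟩ := hs s
      have hb' : θl b = s := hb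
      apply subset_closure
      exact ⟨b, by show θl b ∈ Sep θl; rw [hb']; exact hs', hb'⟩
  exact this

end Epi

end Pool.Agent.Helper988.AC
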