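import Pool.Agent.Helper988.AC.Core

set_option autoImplicit false
open Filter Topology

namespace Pool.Agent.Helper988.AC

section Main

variable {A : Type} [NonUnitalNormedRing A] [NormedSpace ℂ A] [IsScalarTower ℂ A A]
  [SMulCommClass ℂ A A] [CompleteSpace A]

lemma reduced_step (hred : ∀ a : A, a * a = 0 → a = 0) (a u : A) (h : a * (a * u) = 0) :
    a * u = 0 := by
  have h1 : (a * u) * a = 0 := by
    apply hred
    calc (a * u) * a * ((a * u) * a) = (a * u) * (a * (a * u)) * a := by simp only [mul_assoc]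
      _ = 0 := by rw [h, mul_zero, zero_mul]
  apply hred
  calc (a * u) * (a * u) = ((a * u) * a) * u := by simp only [mul_assoc]
    _ = 0 := by rw [h1, zero_mul]

lemma pow_kill (hred : ∀ a : A, a * a = 0 → a = 0) (a s : A) : ∀ n : ℕ,
    ((ContinuousLinearMap.mul ℂ A a) ^ n) s = 0 → a * s = 0 := by
  intro n
  induction n with
  | zero => intro h; simp only [pow_zero] at h; change s = 0 at h; rw [h, mul_zero]
  | succ n ih =>
    intro h
    cases n with
    | zero => simpa using h
    | succ n =>
      apply ih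
      have h1 : ((ContinuousLinearMap.mul ℂ A a) ^ (n + 1 + 1)) s =
          a * (a * (((ContinuousLinearMap.mul ℂ A a) ^ n) s)) := by
        rw [pow_succ', pow_succ']; rfl
      have h2 : ((ContinuousLinearMap.mul ℂ A a) ^ (n + 1)) s =
          a * (((ContinuousLinearMap.mul ℂ A a) ^ n) s) := by
        rw [pow_succ']; rfl
      rw [h1] at h
      rw [h2]
      exact reduced_step hred a _ h

lemma iter_eq (a : A) (n : ℕ) (y : A) :
    ((ContinuousLinearMap.mul ℂ A a) ^ n) y = (fun z => a * z)^[n] y := by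
  induction n with
  | zero => rfl
  | succ n ih => rw [pow_succ', Function.iterate_succ_apply', ← ih]; rfl

/-- multiplication by `θ b` kills the separating space -/
lemma kill (hred : ∀ a : A, a * a = 0 → a = 0)
    {B : Type} [NonUnitalNormedRing B] [NormedSpace ℂ B] [IsScalarTower ℂ B B]
    [SMulCommClass ℂ B B] [CompleteSpace B] (θ : B →ₗ[ℂ] A) (hθ : ∀ x y, θ (x * y) = θ x * θ y)
    (b : B) (hdiv : ∀ x : A, (∀ n : ℕ, x ∈ closure (Set.range (fun y => (fun z => θ b * z)^[n] y))) →
      x = 0)
    (x : ℕ → B) (hx : Tendsto x atTop (𝓝 0)) (s : A)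
    (hs : Tendsto (fun j => θ (x j)) atTop (𝓝 s)) : θ b * s = 0 := by
  set T : A →L[ℂ] A := ContinuousLinearMap.mul ℂ A (θ b) with hT
  have hset : ∀ n : ℕ, (Set.range (fun y => (fun z => θ b * z)^[n] y)) =
      ((LinearMap.range ((T ^ n : A →L[ℂ] A) : A →ₗ[ℂ] A) : Submodule ℂ A) : Set A) := by
    intro n
    ext v
    simp only [Set.mem_range, SetLike.mem_coe, LinearMap.mem_range]
    constructor
    · rintro ⟨y, rfl⟩
      exact ⟨y, iter_eq (θ b) n y⟩
    · rintro ⟨y, rfl⟩
      exact ⟨y, (iter_eq (θ b) n y).symm⟩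
  obtain ⟨n, hn⟩ := gliding θ (ContinuousLinearMap.mul ℂ B b) T (fun y => hθ b y)
    (fun n => (LinearMap.range ((T ^ n : A →L[ℂ] A) : A →ₗ[ℂ] A)).topologicalClosure)
    (by
      have : LinearMap.range ((T ^ 0 : A →L[ℂ] A) : A →ₗ[ℂ] A) = ⊤ := by
        rw [pow_zero]
        exact LinearMap.range_id
      simp only [this]
      exact top_unique (Submodule.le_topologicalClosure _))
    (by
      apply antitone_nat_of_succ_le
      intro n
      apply Submodule.topologicalClosure_mono
      rintro v ⟨y, rfl⟩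
      refine ⟨T y, ?_⟩
      rw [pow_succ]; rfl)
    (fun n => Submodule.isClosed_topologicalClosure _)
    (by
      intro n a ha
      have ha' : a ∈ closure ((LinearMap.range ((T ^ n : A →L[ℂ] A) : A →ₗ[ℂ] A)) : Set A) := ha
      have : T a ∈ closure ((LinearMap.range ((T ^ (n + 1) : A →L[ℂ] A) : A →ₗ[ℂ] A)) : Set A) := by
        refine map_mem_closure T.continuous ha' ?_
        rintro v ⟨y, rfl⟩
        refine ⟨y, ?_⟩
        rw [pow_succ']; rfl
      exact this)
    (by
      intro a ha
      apply hdiv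
      intro n
      rw [hset n]
      exact ha n)
    x hx s hs
  exact pow_kill hred (θ b) s n hn

theorem main_cont (hred : ∀ a : A, a * a = 0 → a = 0) {m : ℕ} (χ : Fin m → (A →ₙₐ[ℂ] ℂ))
    (hdiv : ∀ a : A, (∀ i, χ i a = 0) →
      ∀ x : A, (∀ n : ℕ, x ∈ closure (Set.range (fun y => (fun z => a * z)^[n] y))) → x = 0)
    {B : Type} [NonUnitalNormedRing B] [NormedSpace ℂ B] [IsScalarTower ℂ B B]
    [SMulCommClass ℂ B B] [CompleteSpace B] (θ' : B →ₙₐ[ℂ] A) : Continuous θ' := by
  let θ : B →ₗ[ℂ] A :=
    { toFun := θ', map_add' := map_add θ', map_smul' := fun c x => map_smul θ' c x }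
  have hθ : ∀ x y, θ (x * y) = θ x * θ y := fun x y => map_mul θ' x y
  suffices h : Continuous θ from h
  apply LinearMap.continuous_of_seq_closed_graph
  intro u x0 y0 hu hy
  -- the sequence tending to zero
  have hx : Tendsto (fun j => u j - x0) atTop (𝓝 0) := by
    have := hu.sub_const x0
    rwa [sub_self] at this
  have hs : Tendsto (fun j => θ (u j - x0)) atTop (𝓝 (y0 - θ x0)) := by
    have := hy.sub_const (θ x0)
    refine this.congr (fun j => ?_)
    simp [map_sub]
  set s := y0 - θ x0 with hsdef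
  suffices h : s = 0 from sub_eq_zero.1 h
  -- the characters
  let Φ : B →ₗ[ℂ] (Fin m → ℂ) := LinearMap.pi (fun i =>
    { toFun := fun b => χ i (θ b)
      map_add' := fun a b => by rw [map_add, map_add]
      map_smul' := fun c b => by rw [map_smul, map_smul]; rfl })
  have hΦ : ∀ b i, Φ b i = χ i (θ b) := fun b i => rfl
  have hΦc : Continuous Φ := by
    apply continuous_pi
    intro i
    apply AddMonoidHomClass.continuous_of_bound
      ((LinearMap.proj i).comp Φ : B →ₗ[ℂ] ℂ) 1
    intro b
    rw [one_mul]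
    exact char_bound ((χ i).comp θ') b
  obtain ⟨g, hg⟩ := Φ.rangeRestrict.exists_rightInverse_of_surjective Φ.range_rangeRestrict
  have hgc : Continuous g := LinearMap.continuous_of_finiteDimensional g
  have hθgc : Continuous (θ.comp g) := LinearMap.continuous_of_finiteDimensional _
  have hrc : Continuous Φ.rangeRestrict := hΦc.subtype_mk _
  have hr0 : Tendsto (fun j => Φ.rangeRestrict (u j - x0)) atTop (𝓝 0) := by
    have := (hrc.tendsto 0).comp hx
    rw [map_zero] at this
    exact this
  set x' : ℕ → B := fun j => (u j - x0) - g (Φ.rangeRestrict (u j - x0)) with hx'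
  have hx'0 : Tendsto x' atTop (𝓝 0) := by
    have h1 := (hgc.tendsto 0).comp hr0
    rw [map_zero] at h1
    have := hx.sub h1
    rwa [sub_zero] at this
  have hs' : Tendsto (fun j => θ (x' j)) atTop (𝓝 s) := by
    have h1 := (hθgc.tendsto 0).comp hr0
    rw [map_zero] at h1
    have := hs.sub h1
    rw [sub_zero] at this
    refine this.congr (fun j => ?_)
    simp only [hx', map_sub, Function.comp, LinearMap.comp_apply]
  have hK : ∀ j, Φ (x' j) = 0 := by
    intro j
    have h1 : Φ.rangeRestrict (g (Φ.rangeRestrict (u j - x0))) = Φ.rangeRestrict (u j - x0) :=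
      LinearMap.congr_fun hg (Φ.rangeRestrict (u j - x0))
    have h2 : Φ (g (Φ.rangeRestrict (u j - x0))) = Φ (u j - x0) := congrArg Subtype.val h1
    show Φ ((u j - x0) - g (Φ.rangeRestrict (u j - x0))) = 0
    rw [map_sub, h2, sub_self]
  have hkill : ∀ j, θ (x' j) * s = 0 := by
    intro j
    apply kill hred θ hθ (x' j) _ x' hx'0 s hs'
    apply hdiv
    intro i
    rw [← hΦ, hK j]; rfl
  have hlim : Tendsto (fun j => θ (x' j) * s) atTop (𝓝 (s * s)) := hs'.mul_const s
  have h0 : Tendsto (fun j => θ (x' j) * s) atTop (𝓝 0) := by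
    simp only [hkill]
    exact tendsto_const_nhds
  exact hred s (tendsto_nhds_unique hlim h0)

end Main

end Pool.Agent.Helper988.AC
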