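import Pool.Agent.Helper988.AC.Dense2

set_option autoImplicit false
open Filter Topology

namespace Pool.Agent.Helper988.AC

section Mat

variable {B : Type} [NonUnitalNormedRing B] [NormedSpace ℂ B] [IsScalarTower ℂ B B]
  [SMulCommClass ℂ B B] [CompleteSpace B] {d : ℕ}

omit [NormedSpace ℂ B] [IsScalarTower ℂ B B] [SMulCommClass ℂ B B] [CompleteSpace B] in
lemma pw_succ' (y : B) (n : ℕ) : pw y (n + 1) = pw y n * y := by
  induction n with
  | zero => rfl
  | succ n ih =>
    show y * pw y (n + 1) = (y * pw y n) * y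
    rw [ih, mul_assoc]

lemma eig_bound (ψ : B →ₙₐ[ℂ] Matrix (Fin d) (Fin d) ℂ) (x : B) (μ : ℂ)
    (hμ : (ψ x).charpoly.IsRoot μ) : ‖μ‖ ≤ ‖x‖ := by
  by_contra hc
  push Not at hc
  have hμ0 : μ ≠ 0 := by
    intro h
    rw [h, norm_zero] at hc
    exact absurd hc (not_lt.2 (norm_nonneg _))
  have hdet : (Matrix.scalar (Fin d) μ - ψ x).det = 0 := by
    rw [← Matrix.eval_charpoly]; exact hμ
  obtain ⟨v, hv0, hv⟩ := Matrix.exists_mulVec_eq_zero_iff.2 hdet
  have hv' : (ψ x).mulVec v = μ • v := by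
    rw [Matrix.sub_mulVec, sub_eq_zero] at hv
    rw [← hv, Matrix.scalar_apply]
    ext i
    simp [Matrix.mulVec_diagonal]
  set y : B := μ⁻¹ • x with hy
  have hy1 : ‖y‖ < 1 := by
    rw [hy, norm_smul, norm_inv]
    rw [inv_mul_lt_one₀ (norm_pos_iff.2 hμ0)]
    exact hc
  have hyv : (ψ y).mulVec v = v := by
    rw [hy, map_smul, Matrix.smul_mulVec, hv', smul_smul, inv_mul_cancel₀ hμ0, one_smul]
  have hsum : Summable (pw y) := by
    apply Summable.of_norm_bounded (g := fun n => ‖y‖ ^ (n + 1)) _ (pw_norm y)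
    exact (summable_nat_add_iff 1).2 (summable_geometric_of_lt_one (norm_nonneg _) hy1)
  have h1 : ∑' n, pw y n = y + (∑' n, pw y n) * y := by
    calc ∑' n, pw y n = pw y 0 + ∑' n, pw y (n + 1) := hsum.tsum_eq_zero_add
      _ = y + ∑' n, pw y n * y := by
          congr 1
          exact tsum_congr (fun n => pw_succ' y n)
      _ = y + (∑' n, pw y n) * y := by rw [hsum.tsum_mul_right y]
  have h2 := congrArg (fun M => (ψ M).mulVec v) h1
  simp only [map_add, map_mul, Matrix.add_mulVec, ← Matrix.mulVec_mulVec, hyv] at h2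
  apply hv0
  have h3 : v + (ψ (∑' n, pw y n)).mulVec v = 0 + (ψ (∑' n, pw y n)).mulVec v := by
    rw [zero_add]; exact h2.symm
  exact add_right_cancel h3

lemma trace_bound (ψ : B →ₙₐ[ℂ] Matrix (Fin d) (Fin d) ℂ) (x : B) :
    ‖(ψ x).trace‖ ≤ d * ‖x‖ := by
  rw [Matrix.trace_eq_sum_roots_charpoly]
  calc ‖(ψ x).charpoly.roots.sum‖
      ≤ ((ψ x).charpoly.roots.map (fun z => ‖z‖)).sum := norm_multiset_sum_le _
    _ ≤ ((ψ x).charpoly.roots.map (fun z => ‖z‖)).card • ‖x‖ := by
        apply Multiset.sum_le_card_nsmul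
        intro r hr
        obtain ⟨z, hz, rfl⟩ := Multiset.mem_map.1 hr
        exact eig_bound ψ x z (Polynomial.isRoot_of_mem_roots hz)
    _ ≤ d * ‖x‖ := by
        rw [Multiset.card_map, nsmul_eq_mul]
        apply mul_le_mul_of_nonneg_right _ (norm_nonneg _)
        have h1 := Polynomial.card_roots' (ψ x).charpoly
        rw [Matrix.charpoly_natDegree_eq_dim, Fintype.card_fin] at h1
        exact_mod_cast h1

/-- a surjective homomorphism onto a full matrix algebra is continuous -/
lemma mat_cont (ψ : B →ₙₐ[ℂ] Matrix (Fin d) (Fin d) ℂ) (hψ : Function.Surjective ψ) :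
    Continuous ψ := by
  apply continuous_matrix
  intro k l
  obtain ⟨c, hc⟩ := hψ (Matrix.single l k 1)
  let f : B →ₗ[ℂ] ℂ :=
    { toFun := fun x => ψ x k l
      map_add' := fun a b => by rw [map_add]; rfl
      map_smul' := fun a b => by rw [map_smul]; rfl }
  have : Continuous f := by
    apply AddMonoidHomClass.continuous_of_bound f (d * ‖c‖)
    intro x
    have h1 : ψ x k l = (ψ (x * c)).trace := by
      rw [map_mul, hc, Matrix.trace_mul_single]
      simp
    show ‖ψ x k l‖ ≤ _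
    rw [h1]
    calc ‖(ψ (x * c)).trace‖ ≤ d * ‖x * c‖ := trace_bound ψ _
      _ ≤ d * (‖x‖ * ‖c‖) := mul_le_mul_of_nonneg_left (norm_mul_le _ _) (by positivity)
      _ = d * ‖c‖ * ‖x‖ := by ring
  exact this

/-- the continuity theorem in terms of finitely many matrix representations -/
theorem main_dense {A : Type} [NonUnitalNormedRing A] [NormedSpace ℂ A] [IsScalarTower ℂ A A]
    [SMulCommClass ℂ A A] [CompleteSpace A]
    (hsp : ∀ a : A, (∀ x, a * x * a = 0) → a = 0)
    {m : ℕ} (e : Fin m → ℕ) (ρ : ∀ i, A →ₙₐ[ℂ] Matrix (Fin (e i)) (Fin (e i)) ℂ)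
    (hρ : ∀ i, Function.Surjective (ρ i))
    (hnd : ∀ a c : ℕ → A, (∀ n i, ρ i (a n) = 0) → (∀ n i, ρ i (c n) = 0) → ∀ x : A,
      (∀ n, x ∈ closure (Set.range (fun y => biprod a c n y))) → x = 0)
    (θ : B →ₙₐ[ℂ] A) (hd : DenseRange θ) : Continuous θ := by
  let θ' : B →ₗ[ℂ] A :=
    { toFun := θ, map_add' := map_add θ, map_smul' := fun c x => map_smul θ c x }
  let Ψ : A →ₗ[ℂ] (∀ i, Matrix (Fin (e i)) (Fin (e i)) ℂ) :=
    { toFun := fun a i => ρ i a
      map_add' := fun a b => by ext1 i; simp [map_add]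
      map_smul' := fun c b => by ext1 i; simp [map_smul] }
  have hΨ : ∀ a, Ψ a = 0 ↔ ∀ i, ρ i a = 0 := fun a => funext_iff
  have hθ' : Continuous θ' := by
    refine dense_cont2 hsp Ψ ?_ ?_ ?_ θ' (fun x y => map_mul θ x y) hd ?_
    · intro a c h
      rw [hΨ] at h ⊢
      intro i
      rw [map_mul, h i, zero_mul]
    · intro a c h
      rw [hΨ] at h ⊢
      intro i
      rw [map_mul, h i, mul_zero]
    · intro a c ha hc
      exact hnd a c (fun n i => (hΨ _).1 (ha n) i) (fun n i => (hΨ _).1 (hc n) i)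
    · apply continuous_pi
      intro i
      have hsurj : Function.Surjective ((ρ i).comp θ) := by
        have hdr : DenseRange ((ρ i) ∘ θ) :=
          ((hρ i).denseRange).comp hd (mat_cont (ρ i) (hρ i))
        let L : B →ₗ[ℂ] Matrix (Fin (e i)) (Fin (e i)) ℂ :=
          { toFun := fun b => ρ i (θ b)
            map_add' := fun a b => by rw [map_add, map_add]
            map_smul' := fun a b => by rw [map_smul, map_smul]; rfl }
        have hcl : IsClosed (LinearMap.range L :
            Set (Matrix (Fin (e i)) (Fin (e i)) ℂ)) :=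
          Submodule.closed_of_finiteDimensional (LinearMap.range L)
        intro M
        have hM : M ∈ closure (Set.range L) := hdr M
        have hM' : M ∈ (LinearMap.range L : Set (Matrix (Fin (e i)) (Fin (e i)) ℂ)) :=
          closure_minimal (by rintro _ ⟨b, rfl⟩; exact ⟨b, rfl⟩) hcl hM
        exact hM'
      exact mat_cont ((ρ i).comp θ) hsurj
  exact hθ'

end Mat

end Pool.Agent.Helper988.AC
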