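import Pool.Agent.Helper988.AC.Mat

set_option autoImplicit false
open Filter Topology

namespace Pool.Agent.Helper988.AC

section NilMat

variable {B : Type} [NonUnitalNormedRing B] [NormedSpace ℂ B] [IsScalarTower ℂ B B]
  [SMulCommClass ℂ B B] [CompleteSpace B] {d : ℕ}

lemma multiset_prod_lower (s : Multiset ℂ) (c : ℝ) (hc : 0 ≤ c) (h : ∀ r ∈ s, c ≤ ‖r‖) :
    c ^ (Multiset.card s) ≤ ‖s.prod‖ := by
  induction s using Multiset.induction with
  | empty => simp
  | cons a s ih =>
    rw [Multiset.card_cons, Multiset.prod_cons, norm_mul, pow_succ']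
    exact mul_le_mul (h a (Multiset.mem_cons_self a s))
      (ih (fun r hr => h r (Multiset.mem_cons_of_mem hr))) (pow_nonneg hc _) (norm_nonneg _)

lemma limit_nilpotent (ψ : B →ₙₐ[ℂ] Matrix (Fin d) (Fin d) ℂ) (x : ℕ → B)
    (hx : Tendsto x atTop (𝓝 0)) (M : Matrix (Fin d) (Fin d) ℂ)
    (hM : Tendsto (fun j => ψ (x j)) atTop (𝓝 M)) : M ^ d = 0 := by
  have hroots : ∀ μ ∈ M.charpoly.roots, μ = 0 := by
    intro μ hμ
    by_contra hμ0
    have hdet : M.charpoly.eval μ = 0 := Polynomial.isRoot_of_mem_roots hμ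
    rw [Matrix.eval_charpoly] at hdet
    have hcont : Continuous (fun N : Matrix (Fin d) (Fin d) ℂ => (Matrix.scalar (Fin d) μ - N).det) := by
      apply Continuous.matrix_det
      exact continuous_const.sub continuous_id
    have hlim : Tendsto (fun j => ‖(Matrix.scalar (Fin d) μ - ψ (x j)).det‖) atTop (𝓝 0) := by
      have h1 := ((hcont.tendsto M).comp hM).norm
      rw [hdet, norm_zero] at h1
      exact h1
    set c : ℝ := min 1 (‖μ‖ / 2) with hc
    have hμpos : 0 < ‖μ‖ := norm_pos_iff.2 hμ0
    have hc0 : 0 < c := lt_min one_pos (by positivity)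
    have hev : ∀ᶠ j in atTop, c ^ d ≤ ‖(Matrix.scalar (Fin d) μ - ψ (x j)).det‖ := by
      have h1 : ∀ᶠ j in atTop, ‖x j‖ < ‖μ‖ / 2 := by
        have := hx.norm
        rw [norm_zero] at this
        exact this.eventually_lt_const (by positivity)
      filter_upwards [h1] with j hj
      rw [← Matrix.eval_charpoly]
      rw [(IsAlgClosed.splits (ψ (x j)).charpoly).eval_eq_prod_roots_of_monic
        (Matrix.charpoly_monic _)]
      have h2 : c ^ (Multiset.card ((ψ (x j)).charpoly.roots.map (fun r => μ - r))) ≤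
          ‖((ψ (x j)).charpoly.roots.map (fun r => μ - r)).prod‖ := by
        apply multiset_prod_lower _ _ hc0.le
        intro r hr
        obtain ⟨z, hz, rfl⟩ := Multiset.mem_map.1 hr
        have h3 := eig_bound ψ (x j) z (Polynomial.isRoot_of_mem_roots hz)
        have h4 : ‖μ‖ - ‖z‖ ≤ ‖μ - z‖ := norm_sub_norm_le _ _
        have h5 : c ≤ ‖μ‖ / 2 := min_le_right _ _
        linarith
      refine le_trans ?_ h2
      rw [Multiset.card_map]
      apply pow_le_pow_of_le_one hc0.le (min_le_left _ _)
      have h6 := Polynomial.card_roots' (ψ (x j)).charpoly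
      rwa [Matrix.charpoly_natDegree_eq_dim, Fintype.card_fin] at h6
    have h7 : c ^ d ≤ 0 := ge_of_tendsto hlim hev
    have h8 : 0 < c ^ d := pow_pos hc0 d
    linarith
  have h1 : M.charpoly = Polynomial.X ^ (Multiset.card M.charpoly.roots) := by
    have h2 := (IsAlgClosed.splits M.charpoly).eq_prod_roots_of_monic (Matrix.charpoly_monic _)
    have h3 : M.charpoly.roots = Multiset.replicate (Multiset.card M.charpoly.roots) 0 :=
      Multiset.eq_replicate_card.2 hroots
    rw [h3] at h2
    rw [Multiset.map_replicate, Multiset.prod_replicate, Polynomial.C_0, sub_zero] at h2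
    exact h2
  have h5 : Multiset.card M.charpoly.roots = d := by
    have h6 := Matrix.charpoly_natDegree_eq_dim M
    rw [h1, Polynomial.natDegree_X_pow, Fintype.card_fin] at h6
    exact h6
  have h4 := Matrix.aeval_self_charpoly M
  rw [h1, h5] at h4
  simpa using h4

end NilMat

section Levitzki

variable {A : Type} [NonUnitalNormedRing A] [NormedSpace ℂ A] [IsScalarTower ℂ A A]
  [SMulCommClass ℂ A A]

/-- `(u x)^k z` -/
def uxk (u x : A) : ℕ → A → A
  | 0, z => z
  | k + 1, z => u * x * uxk u x k z

omit [NormedSpace ℂ A] [IsScalarTower ℂ A A] [SMulCommClass ℂ A A] in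
lemma uxk_mul (u x z w : A) (k : ℕ) : uxk u x k (z * w) = uxk u x k z * w := by
  induction k with
  | zero => rfl
  | succ k ih =>
    show u * x * uxk u x k (z * w) = u * x * uxk u x k z * w
    rw [ih]
    simp only [mul_assoc]

omit [NormedSpace ℂ A] [IsScalarTower ℂ A A] [SMulCommClass ℂ A A] in
lemma uxk_add (u x z w : A) (k : ℕ) : uxk u x k (z + w) = uxk u x k z + uxk u x k w := by
  induction k with
  | zero => rfl
  | succ k ih =>
    show u * x * uxk u x k (z + w) = u * x * uxk u x k z + u * x * uxk u x k w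
    rw [ih, mul_add]

omit [NormedSpace ℂ A] [IsScalarTower ℂ A A] [SMulCommClass ℂ A A] in
lemma uxk_zero' (u x : A) (k : ℕ) : uxk u x k 0 = 0 := by
  induction k with
  | zero => rfl
  | succ k ih =>
    show u * x * uxk u x k 0 = 0
    rw [ih, mul_zero]

omit [NormedSpace ℂ A] [IsScalarTower ℂ A A] [SMulCommClass ℂ A A] in
lemma uxk_comm (u x z : A) (k : ℕ) : uxk u x k (u * x * z) = u * x * uxk u x k z := by
  induction k with
  | zero => rfl
  | succ k ih =>
    show u * x * uxk u x k (u * x * z) = u * x * (u * x * uxk u x k z)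
    rw [ih]

/-- the derivative of `t ↦ (u (x + t y))^k u` at zero -/
def dk (u x y : A) : ℕ → A
  | 0 => 0
  | k + 1 => u * y * uxk u x k u + u * x * dk u x y k

lemma hasDeriv_uxk (u x y : A) (k : ℕ) :
    HasDerivAt (fun t : ℂ => uxk u (x + t • y) k u) (dk u x y k) 0 := by
  induction k with
  | zero => exact hasDerivAt_const _ _
  | succ k ih =>
    have hc : HasDerivAt (fun t : ℂ => ContinuousLinearMap.mul ℂ A (u * (x + t • y)))
        (ContinuousLinearMap.mul ℂ A (u * y)) 0 := by
      have h1 : HasDerivAt (fun t : ℂ => u * (x + t • y)) (u * y) 0 := by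
        have h2 : HasDerivAt (fun t : ℂ => u * x + t • (u * y)) ((1 : ℂ) • (u * y)) 0 :=
          ((hasDerivAt_id (0 : ℂ)).smul_const (u * y)).const_add _
        rw [one_smul] at h2
        refine h2.congr_of_eventuallyEq (Eventually.of_forall (fun t => ?_))
        simp only [mul_add, mul_smul_comm]
      exact (ContinuousLinearMap.mul ℂ A).hasFDerivAt.comp_hasDerivAt 0 h1
    have h3 := hc.clm_apply ih
    have h4 : (ContinuousLinearMap.mul ℂ A (u * y)) (uxk u (x + (0 : ℂ) • y) k u) +
        (ContinuousLinearMap.mul ℂ A (u * (x + (0 : ℂ) • y))) (dk u x y k) = dk u x y (k + 1) := by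
      simp [dk]
    rw [h4] at h3
    exact h3

lemma levitzki (hsp : ∀ a : A, (∀ x, a * x * a = 0) → a = 0) (u : A) :
    ∀ k : ℕ, (∀ x, uxk u x k u = 0) → u = 0 := by
  intro k
  induction k with
  | zero => intro h; exact h 0
  | succ k ih =>
    intro h
    apply ih
    intro x
    set v := uxk u x k u with hv
    apply hsp
    intro y
    have hd : dk u x y (k + 1) = 0 := by
      have h1 := hasDeriv_uxk u x y (k + 1)
      have h2 : (fun t : ℂ => uxk u (x + t • y) (k + 1) u) = fun _ => (0 : A) :=
        funext (fun t => h _)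
      rw [h2] at h1
      exact h1.unique (hasDerivAt_const _ _)
    have hE : ∀ j, uxk u x (k + 1) (dk u x y j) = 0 := by
      intro j
      induction j with
      | zero => exact uxk_zero' u x (k + 1)
      | succ j ihj =>
        show uxk u x (k + 1) (u * y * uxk u x j u + u * x * dk u x y j) = 0
        rw [uxk_add, uxk_comm, ihj, mul_zero, add_zero, mul_assoc, uxk_mul, h x, zero_mul]
    have h3 : uxk u x k (dk u x y (k + 1)) = v * y * v := by
      show uxk u x k (u * y * uxk u x k u + u * x * dk u x y k) = v * y * v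
      rw [uxk_add, uxk_comm]
      have h4 : u * x * uxk u x k (dk u x y k) = 0 := hE k
      rw [h4, add_zero, mul_assoc, uxk_mul, mul_assoc]
    rw [← h3, hd, uxk_zero']

end Levitzki

end Pool.Agent.Helper988.AC
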