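import Pool.Agent.Helper988.AC.Mat

set_option autoImplicit false
open Filter Topology

namespace Pool.Agent.Helper988.AC

section Sinclair

variable {A : Type} [NonUnitalNormedRing A] [NormedSpace ℂ A] [IsScalarTower ℂ A A]
  [SMulCommClass ℂ A A]

/-- the `n`-fold product `x (x ( ... (x w)))` -/
def lpow (x : A) : ℕ → A → A
  | 0, w => w
  | n + 1, w => x * lpow x n w

omit [IsScalarTower ℂ A A] [SMulCommClass ℂ A A] in
lemma leibniz_iter (D : A →ₗ[ℂ] A) (hD : ∀ a b : A, D (a * b) = D a * b + a * D b) (a b : A)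
    (n : ℕ) : D^[n] (a * b) = ∑ j ∈ Finset.range (n + 1), (n.choose j : ℂ) • (D^[j] a * D^[n - j] b) := by
  induction n with
  | zero => simp
  | succ n ih =>
    rw [Function.iterate_succ_apply', ih, map_sum]
    have h1 : ∀ j ∈ Finset.range (n + 1), D ((n.choose j : ℂ) • (D^[j] a * D^[n - j] b)) =
        (n.choose j : ℂ) • (D^[j + 1] a * D^[n - j] b) +
        (n.choose j : ℂ) • (D^[j] a * D^[n + 1 - j] b) := by
      intro j hj
      have hj' : n + 1 - j = (n - j) + 1 := by
        have := Finset.mem_range.1 hj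
        omega
      rw [map_smul, hD, smul_add, hj', Function.iterate_succ_apply', Function.iterate_succ_apply']
    rw [Finset.sum_congr rfl h1, Finset.sum_add_distrib]
    rw [Finset.sum_range_succ' (fun j => ((n + 1).choose j : ℂ) • (D^[j] a * D^[n + 1 - j] b)) (n + 1)]
    have h2 : ∀ j ∈ Finset.range (n + 1), (((n + 1).choose (j + 1) : ℕ) : ℂ) •
        (D^[j + 1] a * D^[n + 1 - (j + 1)] b) = (n.choose j : ℂ) • (D^[j + 1] a * D^[n - j] b) +
        (n.choose (j + 1) : ℂ) • (D^[j + 1] a * D^[n - j] b) := by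
      intro j hj
      rw [Nat.choose_succ_succ, Nat.cast_add, add_smul, Nat.add_sub_add_right]
    rw [Finset.sum_congr rfl h2, Finset.sum_add_distrib, add_assoc]
    congr 1
    rw [Finset.sum_range_succ' (fun j => (n.choose j : ℂ) • (D^[j] a * D^[n + 1 - j] b)) n]
    rw [Finset.sum_range_succ (fun j => (n.choose (j + 1) : ℂ) • (D^[j + 1] a * D^[n - j] b)) n]
    simp [Nat.add_sub_add_right]

/-- the annihilator of the module `A / L` -/
def annL (L : Submodule ℂ A) : Submodule ℂ A where
  carrier := {x | ∀ a, x * a ∈ L}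
  add_mem' := fun {x y} hx hy a => by rw [add_mul]; exact L.add_mem (hx a) (hy a)
  zero_mem' := fun a => by rw [zero_mul]; exact L.zero_mem
  smul_mem' := fun c x hx a => by rw [smul_mul_assoc]; exact L.smul_mem c (hx a)

lemma ann_left (L : Submodule ℂ A) (hL : ∀ a x : A, x ∈ L → a * x ∈ L) (c x : A)
    (hx : x ∈ annL L) : c * x ∈ annL L := fun a => by rw [mul_assoc]; exact hL _ _ (hx a)

lemma ann_right (L : Submodule ℂ A) (c x : A)
    (hx : x ∈ annL L) : x * c ∈ annL L := fun a => by rw [mul_assoc]; exact hx _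

lemma low_mem (D : A →ₗ[ℂ] A) (hD : ∀ a b : A, D (a * b) = D a * b + a * D b)
    (L : Submodule ℂ A) (hL : ∀ a x : A, x ∈ L → a * x ∈ L) (x : A) (hx : x ∈ annL L) (n : ℕ) :
    ∀ m ≤ n, D^[m] (pw x n) ∈ annL L := by
  induction n with
  | zero =>
    intro m hm
    obtain rfl : m = 0 := by omega
    exact hx
  | succ n ih =>
    intro m hm
    show D^[m] (x * pw x n) ∈ annL L
    rw [leibniz_iter D hD]
    apply Submodule.sum_mem
    intro j hj
    apply Submodule.smul_mem
    rcases Nat.eq_zero_or_pos j with rfl | hj0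
    · exact ann_right L _ _ hx
    · exact ann_left L hL _ _ (ih _ (by omega))

lemma top_mem (D : A →ₗ[ℂ] A) (hD : ∀ a b : A, D (a * b) = D a * b + a * D b)
    (L : Submodule ℂ A) (hL : ∀ a x : A, x ∈ L → a * x ∈ L) (x : A) (hx : x ∈ annL L) (n : ℕ) :
    D^[n + 1] (pw x n) - ((n + 1).factorial : ℂ) • pw (D x) n ∈ annL L := by
  induction n with
  | zero => simp [pw]
  | succ n ih =>
    show D^[n + 1 + 1] (x * pw x n) - ((n + 1 + 1).factorial : ℂ) • (D x * pw (D x) n) ∈ annL L
    rw [leibniz_iter D hD, Finset.sum_range_succ', Finset.sum_range_succ']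
    have h1 : ∑ j ∈ Finset.range (n + 1), (((n + 1 + 1).choose (j + 1 + 1) : ℕ) : ℂ) •
        (D^[j + 1 + 1] x * D^[n + 1 + 1 - (j + 1 + 1)] (pw x n)) ∈ annL L := by
      apply Submodule.sum_mem
      intro j hj
      apply Submodule.smul_mem
      exact ann_left L hL _ _ (low_mem D hD L hL x hx n _ (by omega))
    have h2 : (((n + 1 + 1).choose 0 : ℕ) : ℂ) • (D^[0] x * D^[n + 1 + 1 - 0] (pw x n)) ∈
        annL L := Submodule.smul_mem _ _ (ann_right L _ _ hx)
    have h3 : (((n + 1 + 1).choose (0 + 1) : ℕ) : ℂ) •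
        (D^[0 + 1] x * D^[n + 1 + 1 - (0 + 1)] (pw x n)) -
        ((n + 1 + 1).factorial : ℂ) • (D x * pw (D x) n) ∈ annL L := by
      have h4 : (((n + 1 + 1).choose (0 + 1) : ℕ) : ℂ) •
          (D^[0 + 1] x * D^[n + 1 + 1 - (0 + 1)] (pw x n)) -
          ((n + 1 + 1).factorial : ℂ) • (D x * pw (D x) n) =
          ((n + 1 + 1 : ℕ) : ℂ) • (D x * (D^[n + 1] (pw x n) -
            ((n + 1).factorial : ℂ) • pw (D x) n)) := by
        rw [mul_sub, smul_sub, mul_smul_comm, smul_smul, Nat.factorial_succ (n + 1)]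
        simp
      rw [h4]
      exact Submodule.smul_mem _ _ (ann_left L hL _ _ ih)
    have h5 := Submodule.add_mem _ (Submodule.add_mem _ h1 h2) h3
    convert h5 using 1
    abel

lemma iter_bound (D : A →ₗ[ℂ] A) (C : ℝ) (hC0 : 0 ≤ C) (hC : ∀ x, ‖D x‖ ≤ C * ‖x‖) (n : ℕ)
    (z : A) : ‖D^[n] z‖ ≤ C ^ n * ‖z‖ := by
  induction n with
  | zero => simp
  | succ n ih =>
    rw [Function.iterate_succ_apply', pow_succ']
    calc ‖D (D^[n] z)‖ ≤ C * ‖D^[n] z‖ := hC _
      _ ≤ C * (C ^ n * ‖z‖) := mul_le_mul_of_nonneg_left ih hC0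
      _ = C * C ^ n * ‖z‖ := by ring

lemma max_closed [CompleteSpace A] (L : Submodule ℂ A) (hL : ∀ a x : A, x ∈ L → a * x ∈ L)
    (u : A) (hu : ∀ a : A, a - a * u ∈ L) (hne : L ≠ ⊤)
    (hmax : ∀ L' : Submodule ℂ A, (∀ a x : A, x ∈ L' → a * x ∈ L') → L ≤ L' → L' = L ∨ L' = ⊤) :
    IsClosed (L : Set A) := by
  have h1 : ∀ a x : A, x ∈ L.topologicalClosure → a * x ∈ L.topologicalClosure := by
    intro a x hx
    exact map_mem_closure (continuous_const_mul a) hx (fun y hy => hL a y hy)
  rcases hmax L.topologicalClosure h1 L.le_topologicalClosure with h | h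
  · rw [← h]; exact Submodule.isClosed_topologicalClosure L
  · exfalso
    have hu' : u ∈ closure (L : Set A) := by
      have : u ∈ L.topologicalClosure := by rw [h]; trivial
      exact this
    obtain ⟨l, hl, hul⟩ := Metric.mem_closure_iff.1 hu' 1 one_pos
    rw [dist_eq_norm] at hul
    set z := u - l with hz
    have hz1 : ∀ a, a - a * z ∈ L := by
      intro a
      have : a - a * z = (a - a * u) + a * l := by rw [hz, mul_sub]; abel
      rw [this]
      exact L.add_mem (hu a) (hL a l hl)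
    apply hne
    rw [Submodule.eq_top_iff']
    intro b
    have hsum : Summable (fun n => b * pw z n) := by
      apply Summable.of_norm_bounded (g := fun n => ‖b‖ * ‖z‖ ^ (n + 1))
      · exact ((summable_nat_add_iff 1).2
          (summable_geometric_of_lt_one (norm_nonneg _) hul)).mul_left _
      · intro n
        exact (norm_mul_le _ _).trans (mul_le_mul_of_nonneg_left (pw_norm z n) (norm_nonneg _))
    have h2 : ∑' n, b * pw z n = b * z + (∑' n, b * pw z n) * z := by
      calc ∑' n, b * pw z n = b * pw z 0 + ∑' n, b * pw z (n + 1) := hsum.tsum_eq_zero_add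
        _ = b * z + ∑' n, (b * pw z n) * z := by
            congr 1
            exact tsum_congr (fun n => by rw [pw_succ', mul_assoc])
        _ = b * z + (∑' n, b * pw z n) * z := by rw [hsum.tsum_mul_right z]
    set w := ∑' n, b * pw z n with hw
    have h3 : b = (b + w) - (b + w) * z := by
      rw [add_mul]
      have : w = b * z + w * z := h2
      calc b = b + w - w := by abel
        _ = b + w - (b * z + w * z) := by rw [← this]
    rw [h3]
    exact hz1 _

theorem sinclair [CompleteSpace A] (D : A →ₗ[ℂ] A)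
    (hD : ∀ a b : A, D (a * b) = D a * b + a * D b) (hc : Continuous D)
    (L : Submodule ℂ A) (hL : ∀ a x : A, x ∈ L → a * x ∈ L)
    (hu : ∃ u : A, ∀ a : A, a - a * u ∈ L) (hne : L ≠ ⊤)
    (hmax : ∀ L' : Submodule ℂ A, (∀ a x : A, x ∈ L' → a * x ∈ L') → L ≤ L' → L' = L ∨ L' = ⊤)
    (x : A) (hx : ∀ a : A, x * a ∈ L) (a : A) : D x * a ∈ L := by
  obtain ⟨u, hu⟩ := hu
  have hcl := max_closed L hL u hu hne hmax
  by_contra hcon
  set v := D x * a with hv
  -- a multiplier
  have h1 : ∃ c, c * v ∉ L := by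
    by_contra h
    push Not at h
    let L2 : Submodule ℂ A :=
      { carrier := {w | ∀ c, c * w ∈ L}
        add_mem' := fun {p q} hp hq c => by rw [mul_add]; exact L.add_mem (hp c) (hq c)
        zero_mem' := fun c => by rw [mul_zero]; exact L.zero_mem
        smul_mem' := fun t p hp c => by rw [mul_smul_comm]; exact L.smul_mem t (hp c) }
    rcases hmax L2 (fun b w hw c => by rw [← mul_assoc]; exact hw _) (fun w hw c => hL c w hw)
      with h2 | h2
    · apply hcon
      rw [← h2]
      exact h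
    · apply hne
      rw [Submodule.eq_top_iff']
      intro b
      have h3 : u ∈ L2 := by rw [h2]; trivial
      have h4 := L.add_mem (hu b) (h3 b)
      rwa [sub_add_cancel] at h4
  obtain ⟨c₀, hc₀⟩ := h1
  let R : Submodule ℂ A := LinearMap.range (LinearMap.mulRight ℂ v)
  have h2 : L ⊔ R = ⊤ := by
    rcases hmax (L ⊔ R) (by
      intro b w hw
      obtain ⟨l, hl, r, ⟨t, rfl⟩, rfl⟩ := Submodule.mem_sup.1 hw
      rw [mul_add]
      refine Submodule.add_mem_sup (hL _ _ hl) ⟨b * t, ?_⟩
      simp [mul_assoc]) le_sup_left with h | h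
    · exfalso
      apply hc₀
      have : c₀ * v ∈ L ⊔ R := Submodule.mem_sup_right ⟨c₀, rfl⟩
      rwa [h] at this
    · exact h
  have h3 : a ∈ L ⊔ R := by rw [h2]; trivial
  obtain ⟨l, hl, r, ⟨c, rfl⟩, hlr⟩ := Submodule.mem_sup.1 h3
  have hlr' : l + c * v = a := hlr
  set x' := c * x with hx'
  have hx'P : x' ∈ annL L := ann_left L hL c x hx
  set y := D x' with hy
  have hya : y * a - a ∈ L := by
    have : y * a - a = D c * (x * a) + -l := by
      have e1 : c * v - a = -l := by
        rw [sub_eq_iff_eq_add, ← hlr']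
        abel
      have e2 : y * a = D c * (x * a) + c * v := by
        rw [hy, hx', hD, add_mul, mul_assoc, mul_assoc]
      rw [e2, add_sub_assoc, e1]
    rw [this]
    exact L.add_mem (hL _ _ (hx a)) (L.neg_mem hl)
  have hpa : ∀ n, pw y n * a - a ∈ L := by
    intro n
    induction n with
    | zero => exact hya
    | succ n ih =>
      have : pw y (n + 1) * a - a = y * (pw y n * a - a) + (y * a - a) := by
        show y * pw y n * a - a = _
        rw [mul_sub, mul_assoc]; abel
      rw [this]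
      exact L.add_mem (hL _ _ ih) hya
  let D' : A →L[ℂ] A := ⟨D, hc⟩
  have hbd : ∀ z, ‖D z‖ ≤ ‖D'‖ * ‖z‖ := fun z => D'.le_opNorm z
  have hmem : ∀ n : ℕ, a - (((n + 1).factorial : ℂ)⁻¹) • (D^[n + 1] (pw x' n) * a) ∈ L := by
    intro n
    have h4 := top_mem D hD L hL x' hx'P n a
    have hf : ((n + 1).factorial : ℂ) ≠ 0 := by exact_mod_cast (Nat.factorial_ne_zero _)
    have h5 := L.smul_mem (((n + 1).factorial : ℂ)⁻¹) h4
    rw [sub_mul, smul_sub, smul_mul_assoc, smul_smul, inv_mul_cancel₀ hf, one_smul] at h5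
    have h6 := L.sub_mem (L.neg_mem h5) (hpa n)
    convert h6 using 1
    abel
  have hlim : Tendsto (fun n : ℕ => a - (((n + 1).factorial : ℂ)⁻¹) •
      (D^[n + 1] (pw x' n) * a)) atTop (𝓝 (a - 0)) := by
    apply Tendsto.sub tendsto_const_nhds
    apply squeeze_zero_norm (a := fun n : ℕ =>
      (‖D'‖ * ‖x'‖) ^ (n + 1) / (n + 1).factorial * ‖a‖)
    · intro n
      rw [norm_smul, norm_inv]
      have h7 : ‖((n + 1).factorial : ℂ)‖ = (n + 1).factorial := by
        simp
      rw [h7]
      have h8 : ‖D^[n + 1] (pw x' n) * a‖ ≤ (‖D'‖ * ‖x'‖) ^ (n + 1) * ‖a‖ := by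
        refine (norm_mul_le _ _).trans (mul_le_mul_of_nonneg_right ?_ (norm_nonneg _))
        refine (iter_bound D ‖D'‖ (norm_nonneg _) hbd (n + 1) _).trans ?_
        rw [mul_pow]
        exact mul_le_mul_of_nonneg_left (pw_norm x' n) (by positivity)
      calc ((n + 1).factorial : ℝ)⁻¹ * ‖D^[n + 1] (pw x' n) * a‖
          ≤ ((n + 1).factorial : ℝ)⁻¹ * ((‖D'‖ * ‖x'‖) ^ (n + 1) * ‖a‖) :=
            mul_le_mul_of_nonneg_left h8 (by positivity)
        _ = (‖D'‖ * ‖x'‖) ^ (n + 1) / (n + 1).factorial * ‖a‖ := by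
            field_simp
    · have h9 := (FloorSemiring.tendsto_pow_div_factorial_atTop (‖D'‖ * ‖x'‖)).comp
        (tendsto_add_atTop_nat 1)
      have h10 := h9.mul_const ‖a‖
      rw [zero_mul] at h10
      exact h10
  rw [sub_zero] at hlim
  have haL : a ∈ L := hcl.mem_of_tendsto hlim (Eventually.of_forall hmem)
  exact hcon (hL _ _ haL)

end Sinclair

end Pool.Agent.Helper988.AC
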