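import Pool.Agent.Helper988.AC.Cofin

set_option autoImplicit false
open Filter Topology

namespace Pool.Agent.Helper988.AC

section Sub

variable {A : Type} [NonUnitalNormedRing A] [NormedSpace ℂ A] [IsScalarTower ℂ A A]
  [SMulCommClass ℂ A A] [CompleteSpace A]
  {B : Type} [NonUnitalNormedRing B] [NormedSpace ℂ B] [IsScalarTower ℂ B B]
  [SMulCommClass ℂ B B] [CompleteSpace B]

/-- homomorphisms whose range has semiprime closure, into algebras in which the closed powers of the
closed cofinite ideals have zero intersection -/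
theorem cofin_cont_sub (θ : B →ₙₐ[ℂ] A)
    (hsp : ∀ a ∈ closure (Set.range θ), (∀ x ∈ closure (Set.range θ), a * x * a = 0) → a = 0)
    (hK : ∀ y : A, y ≠ 0 → ∃ (K J : Submodule ℂ A) (n : ℕ), IsClosed (K : Set A) ∧
      (∀ a x, x ∈ K → a * x ∈ K) ∧ (∀ a x, x ∈ K → x * a ∈ K) ∧
      IsClosed (J : Set A) ∧ FiniteDimensional ℂ (A ⧸ J) ∧
      (∀ a x, x ∈ J → a * x ∈ J) ∧ (∀ a x, x ∈ J → x * a ∈ J) ∧
      (∀ x ∈ PowProd J n, x ∈ K) ∧ y ∉ K) : Continuous θ := by
  let C : NonUnitalSubalgebra ℂ A := (NonUnitalAlgHom.range θ).topologicalClosure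
  have hCset : (C : Set A) = closure (Set.range θ) := by
    show closure ((NonUnitalAlgHom.range θ : NonUnitalSubalgebra ℂ A) : Set A) = _
    rw [NonUnitalAlgHom.coe_range]
  letI nsC : NormedSpace ℂ C :=
    { (inferInstance : Module ℂ C) with
      norm_smul_le := fun c x => norm_smul_le c (x : A) }
  haveI cC : CompleteSpace C := by
    have : IsClosed (C : Set A) := by rw [hCset]; exact isClosed_closure
    exact this.completeSpace_coe
  have hmem : ∀ x, θ x ∈ C := by
    intro x
    show θ x ∈ (C : Set A)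
    rw [hCset]
    exact subset_closure ⟨x, rfl⟩
  let θ' : B →ₙₐ[ℂ] C := NonUnitalAlgHom.codRestrict θ C hmem
  have hθ' : ∀ x, ((θ' x : C) : A) = θ x := fun x => rfl
  have hd : DenseRange θ' := by
    intro c
    rw [Metric.mem_closure_iff]
    intro ε hε
    have hc : (c : A) ∈ closure (Set.range θ) := by rw [← hCset]; exact c.2
    obtain ⟨a, ⟨b, rfl⟩, hb⟩ := Metric.mem_closure_iff.1 hc ε hε
    exact ⟨θ' b, ⟨b, rfl⟩, hb⟩
  have hsub : ∀ (J : Submodule ℂ A) (n : ℕ) (x : C),
      x ∈ PowProd (J.comap (NonUnitalSubalgebra.toSubmodule C).subtype) n →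
      (x : A) ∈ PowProd J n := by
    intro J n
    induction n with
    | zero => intro x hx; exact hx
    | succ n ih =>
      rintro x ⟨a, ha, c, hc, rfl⟩
      exact ⟨a, ha, c, ih c hc, rfl⟩
  have hc' : Continuous θ' := by
    refine cofin_cont ?_ ?_ θ' hd
    · intro a ha
      apply Subtype.ext
      have ha' : (a : A) ∈ closure (Set.range θ) := by rw [← hCset]; exact a.2
      refine hsp a ha' (fun x hx => ?_)
      have hx' : x ∈ C := by
        show x ∈ (C : Set A)
        rw [hCset]; exact hx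
      exact congrArg Subtype.val (ha ⟨x, hx'⟩)
    · intro y hy
      have hy' : (y : A) ≠ 0 := fun h => hy (Subtype.ext h)
      obtain ⟨K, J, n, hK1, hK2, hK3, hJ1, hJ2, hJ3, hJ4, hJK, hyK⟩ := hK _ hy'
      refine ⟨K.comap (NonUnitalSubalgebra.toSubmodule C).subtype,
        J.comap (NonUnitalSubalgebra.toSubmodule C).subtype, n, hK1.preimage continuous_subtype_val,
        fun a x hx => hK2 _ _ hx, fun a x hx => hK3 _ _ hx, hJ1.preimage continuous_subtype_val,
        ?_, fun a x hx => hJ3 _ _ hx, fun a x hx => hJ4 _ _ hx,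
        fun x hx => hJK _ (hsub J n x hx), hyK⟩
      haveI := hJ2
      let ι : (↥C ⧸ (J.comap (NonUnitalSubalgebra.toSubmodule C).subtype)) →ₗ[ℂ] (A ⧸ J) :=
        Submodule.mapQ _ J (NonUnitalSubalgebra.toSubmodule C).subtype le_rfl
      apply FiniteDimensional.of_injective ι
      rw [← LinearMap.ker_eq_bot, Submodule.ker_mapQ]
      simp
  exact continuous_subtype_val.comp hc'

end Sub

end Pool.Agent.Helper988.AC
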