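import Mathlib

set_option autoImplicit false
open Filter Topology

namespace Pool.Agent.Helper988.AC

/-- the Hilbert space `ℓ²` -/
abbrev L2 : Type := lp (fun _ : ℕ => ℂ) 2

lemma exists_disc : ∃ f : L2 →ₗ[ℂ] ℂ, ¬ Continuous f := by
  classical
  let b : HilbertBasis ℕ ℂ L2 := HilbertBasis.ofRepr (LinearIsometryEquiv.refl ℂ L2)
  have ho := b.orthonormal
  have hli := ho.linearIndependent
  let g : (Submodule.span ℂ (Set.range b)) →ₗ[ℂ] ℂ :=
    (Module.Basis.span hli).constr ℂ (fun n => (n : ℂ))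
  obtain ⟨f, hf⟩ := g.exists_extend
  have hfv : ∀ n : ℕ, f (b n) = n := by
    intro n
    have h1 : f (b n) = g (Module.Basis.span hli n) := by
      rw [← hf]
      simp [Module.Basis.span_apply]
    rw [h1]
    exact Module.Basis.constr_basis (Module.Basis.span hli) ℂ (fun n => (n : ℂ)) n
  refine ⟨f, fun hc => ?_⟩
  let F : L2 →L[ℂ] ℂ := ⟨f, hc⟩
  obtain ⟨n, hn⟩ := exists_nat_gt ‖F‖
  have h2 := F.le_opNorm (b n)
  have h3 : F (b n) = n := hfv n
  rw [h3, ho.1 n, mul_one, Complex.norm_natCast] at h2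
  exact absurd h2 (not_le.2 hn)

/-- `ℓ²` with the zero product -/
def Z : Type := L2

noncomputable instance instZRing : NonUnitalNormedRing Z :=
  letI : NormedAddCommGroup Z := inferInstanceAs (NormedAddCommGroup L2)
  { (inferInstance : NormedAddCommGroup Z) with
    mul := fun _ _ => 0
    left_distrib := fun _ _ _ => (add_zero 0).symm
    right_distrib := fun _ _ _ => (add_zero 0).symm
    zero_mul := fun _ => rfl
    mul_zero := fun _ => rfl
    mul_assoc := fun _ _ _ => rfl
    norm_mul_le := fun a b => by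
      show ‖(0 : Z)‖ ≤ ‖a‖ * ‖b‖
      rw [norm_zero]
      exact mul_nonneg (norm_nonneg _) (norm_nonneg _) }

noncomputable instance instZSpace : NormedSpace ℂ Z := inferInstanceAs (NormedSpace ℂ L2)

lemma Z_mul (a b : Z) : a * b = 0 := rfl

instance instZTower : IsScalarTower ℂ Z Z := ⟨fun c a b => by
  show (c • a) * b = c • (a * b)
  rw [Z_mul, Z_mul, smul_zero]⟩

instance instZComm : SMulCommClass ℂ Z Z := ⟨fun c a b => by
  show c • (a * b) = a * (c • b)
  rw [Z_mul, Z_mul, smul_zero]⟩

instance instZComplete : CompleteSpace Z := inferInstanceAs (CompleteSpace L2)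

/-- a Banach algebra in which all homomorphisms with commutative range are continuous has no
non-zero element of square zero -/
lemma reduced_of_C {A : Type} [NonUnitalNormedRing A] [NormedSpace ℂ A] [IsScalarTower ℂ A A]
    [SMulCommClass ℂ A A] [CompleteSpace A]
    (hC : ∀ (B : Type) [NonUnitalNormedRing B] [NormedSpace ℂ B] [IsScalarTower ℂ B B]
        [SMulCommClass ℂ B B] [CompleteSpace B] (θ : B →ₙₐ[ℂ] A),
        (∀ x y : B, θ x * θ y = θ y * θ x) → Continuous θ) (a : A) (ha : a * a = 0) : a = 0 := by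
  by_contra hne
  obtain ⟨f, hf⟩ := exists_disc
  apply hf
  let f' : Z →ₗ[ℂ] ℂ := f
  let θ : Z →ₙₐ[ℂ] A :=
    { toFun := fun x => f' x • a
      map_smul' := fun c x => by
        rw [map_smul, smul_eq_mul, mul_smul]; rfl
      map_zero' := by rw [map_zero, zero_smul]
      map_add' := fun x y => by rw [map_add, add_smul]
      map_mul' := fun x y => by
        rw [Z_mul, map_zero, zero_smul, smul_mul_assoc, mul_smul_comm, ha, smul_zero, smul_zero] }
  have hθ : Continuous θ := hC Z θ (by
    intro x y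
    show (f' x • a) * (f' y • a) = (f' y • a) * (f' x • a)
    rw [smul_mul_assoc, mul_smul_comm, ha, smul_zero, smul_zero, smul_mul_assoc, mul_smul_comm, ha,
      smul_zero, smul_zero])
  -- recover `f` by a bound
  have hθl : ∀ x : Z, θ x = f' x • a := fun x => rfl
  let θl : Z →ₗ[ℂ] A :=
    { toFun := θ, map_add' := map_add θ, map_smul' := fun c x => map_smul θ c x }
  let Θ : Z →L[ℂ] A := ⟨θl, hθ⟩
  have hb : ∀ x : Z, ‖f' x‖ ≤ (‖Θ‖ / ‖a‖) * ‖x‖ := by
    intro x
    have h1 := Θ.le_opNorm x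
    have h2 : Θ x = f' x • a := rfl
    rw [h2, norm_smul] at h1
    have hpos : 0 < ‖a‖ := norm_pos_iff.2 hne
    rw [div_mul_eq_mul_div, le_div_iff₀ hpos]
    exact h1
  exact AddMonoidHomClass.continuous_of_bound f (‖Θ‖ / ‖a‖) hb

end Pool.Agent.Helper988.AC
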